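import Pool.Agent.H607R2.BW.Defs2

namespace Pool.Agent.H607R2.BW

open Filter Topology

theorem ASY2_poly (A C : ℕ) (q : ℝ) (hq : 1 < q) :
    ∃ m₀ : ℕ, ∀ m : ℕ, m₀ ≤ m → (1 + (C : ℝ) * m) ^ A ≤ q ^ m := by
  have hr : |q⁻¹| < 1 := by
    rw [abs_of_pos (inv_pos.2 (by linarith))]
    exact inv_lt_one_of_one_lt₀ hq
  have ht := tendsto_pow_const_mul_const_pow_of_abs_lt_one A hr
  have hpos : (0 : ℝ) < ((1 + (C : ℝ)) ^ A)⁻¹ := by positivity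
  have hev := ht.eventually (ge_mem_nhds hpos)
  obtain ⟨m₁, hm₁⟩ := eventually_atTop.1 hev
  refine ⟨max m₁ 1, fun m hm => ?_⟩
  have h1 : m₁ ≤ m := (le_max_left _ _).trans hm
  have h2 : (1 : ℝ) ≤ m := by exact_mod_cast (le_max_right _ _).trans hm
  have h3 := hm₁ m h1
  have hqm : (0 : ℝ) < q ^ m := by positivity
  have h4 : (m : ℝ) ^ A * (1 + (C : ℝ)) ^ A ≤ q ^ m := by
    have h5 : (m : ℝ) ^ A * q⁻¹ ^ m * ((1 + (C : ℝ)) ^ A * q ^ m) ≤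
        ((1 + (C : ℝ)) ^ A)⁻¹ * ((1 + (C : ℝ)) ^ A * q ^ m) :=
      mul_le_mul_of_nonneg_right h3 (by positivity)
    have h6 : ((1 + (C : ℝ)) ^ A)⁻¹ * ((1 + (C : ℝ)) ^ A * q ^ m) = q ^ m := by
      rw [← mul_assoc, inv_mul_cancel₀ (by positivity), one_mul]
    have h7 : (m : ℝ) ^ A * q⁻¹ ^ m * ((1 + (C : ℝ)) ^ A * q ^ m) =
        (m : ℝ) ^ A * (1 + (C : ℝ)) ^ A := by
      rw [inv_pow]
      field_simp
    rw [h6, h7] at h5
    exact h5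
  calc (1 + (C : ℝ) * m) ^ A ≤ ((m : ℝ) * (1 + C)) ^ A := by
        apply pow_le_pow_left₀ (by positivity)
        nlinarith
    _ = (m : ℝ) ^ A * (1 + (C : ℝ)) ^ A := mul_pow _ _ _
    _ ≤ q ^ m := h4

theorem ASY2_rp (m : ℕ) (x : ℝ) : ((2 : ℝ) ^ m) ^ x = 2 ^ (x * m) := by
  rw [← Real.rpow_natCast, ← Real.rpow_mul (by norm_num), mul_comm]

theorem t_ASY2 : S_ASY2 := by
  intro A C c ε η hη hc0 hlt
  set d : ℝ := ε - ((A : ℝ) + 1) * c with hd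
  have hd0 : 0 < d := by linarith
  have hq : (1 : ℝ) < 2 ^ (d / 2) := Real.one_lt_rpow (by norm_num) (by linarith)
  obtain ⟨m₁, hm₁⟩ := ASY2_poly A C _ hq
  obtain ⟨m₂, hm₂⟩ := eventually_atTop.1
    ((tendsto_pow_atTop_atTop_of_one_lt hq).eventually_ge_atTop (1 / η))
  refine ⟨max m₁ m₂, fun m w hm hw => ?_⟩
  have hp := hm₁ m ((le_max_left _ _).trans hm)
  have hp2 := hm₂ m ((le_max_right _ _).trans hm)
  rw [ASY2_rp] at hw
  rw [ASY2_rp]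
  set W : ℝ := 2 ^ (c * m) with hW
  have hm0 : (0 : ℝ) ≤ m := Nat.cast_nonneg m
  have hW1 : 1 ≤ W := Real.one_le_rpow (by norm_num) (by positivity)
  have hW0 : 0 < W := by linarith
  have hC0 : (0 : ℝ) ≤ C := Nat.cast_nonneg C
  have hw0 : (0 : ℝ) ≤ w := Nat.cast_nonneg w
  have e1 : (1 + (C : ℝ) * w * m) ≤ (1 + (C : ℝ) * m) * W := by
    have : (C : ℝ) * w * m ≤ C * W * m :=
      mul_le_mul_of_nonneg_right (mul_le_mul_of_nonneg_left hw hC0) hm0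
    nlinarith
  have e2 : (1 + (C : ℝ) * w * m) ^ A ≤ ((1 + (C : ℝ) * m) * W) ^ A :=
    pow_le_pow_left₀ (by positivity) e1 A
  have e3 : W ^ (A + 1) = 2 ^ (((A : ℝ) + 1) * c * m) := by
    rw [hW, ← Real.rpow_natCast, ← Real.rpow_mul (by norm_num)]
    congr 1
    push_cast
    ring
  have e4 : ((2 : ℝ) ^ (d / 2)) ^ m = 2 ^ (d / 2 * m) := by
    rw [← Real.rpow_natCast, ← Real.rpow_mul (by norm_num)]
  have e6 : (1 + (C : ℝ) * m) ^ A ≤ η * 2 ^ (d * m) := by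
    have h1 : (1 : ℝ) ≤ η * (2 ^ (d / 2)) ^ m := by
      have := mul_le_mul_of_nonneg_left hp2 hη.le
      rwa [mul_one_div_cancel hη.ne'] at this
    calc (1 + (C : ℝ) * m) ^ A ≤ (2 ^ (d / 2)) ^ m := hp
      _ = 1 * (2 ^ (d / 2)) ^ m := (one_mul _).symm
      _ ≤ (η * (2 ^ (d / 2)) ^ m) * (2 ^ (d / 2)) ^ m :=
        mul_le_mul_of_nonneg_right h1 (by positivity)
      _ = η * 2 ^ (d * m) := by
        rw [e4, mul_assoc, ← Real.rpow_add (by norm_num)]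
        congr 2
        ring
  have e5 : (w : ℝ) * (1 + (C : ℝ) * w * m) ^ A ≤ η * 2 ^ (ε * m) := by
    calc (w : ℝ) * (1 + (C : ℝ) * w * m) ^ A ≤ W * ((1 + (C : ℝ) * m) * W) ^ A :=
          mul_le_mul hw e2 (by positivity) hW0.le
      _ = (1 + (C : ℝ) * m) ^ A * W ^ (A + 1) := by rw [mul_pow]; ring
      _ ≤ (η * 2 ^ (d * m)) * 2 ^ (((A : ℝ) + 1) * c * m) := by
        rw [e3]
        exact mul_le_mul_of_nonneg_right e6 (by positivity)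
      _ = η * 2 ^ (ε * m) := by
        rw [mul_assoc, ← Real.rpow_add (by norm_num)]
        congr 2
        rw [hd]
        ring
  push_cast
  calc (2 : ℝ) ^ m * ((w : ℝ) * (1 + (C : ℝ) * w * m) ^ A)
      ≤ 2 ^ m * (η * 2 ^ (ε * m)) :=
        mul_le_mul_of_nonneg_left e5 (by positivity)
    _ = η * 2 ^ ((1 + ε) * m) := by
      rw [← Real.rpow_natCast 2 m, mul_left_comm, ← Real.rpow_add (by norm_num)]
      congr 2
      ring

end Pool.Agent.H607R2.BW
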