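import Pool.Agent.H607R2.BW.Defs

/-!
Brown-Erdos-Sos for triple systems of small width.
-/

set_option autoImplicit false

namespace Pool.Agent.H607R2.BW

theorem bes3_poly (p : ℕ) (hp : 21 ≤ p) : 18 * p ^ 2 ≤ (p - 1) ^ 3 + 18 := by
  obtain ⟨q, rfl⟩ : ∃ q, p = q + 21 := ⟨p - 21, by omega⟩
  have h1 : q + 21 - 1 = q + 20 := by omega
  rw [h1]
  nlinarith [Nat.zero_le (q ^ 3), Nat.zero_le (q ^ 2), Nat.zero_le q]

theorem t_BES3 (hG : S_GRID) (hE : S_EDG) (hO : S_ORD) : S_BES3 := by
  classical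
  intro m w k a E hcard hW hk hka hlt
  -- a ≥ 1
  have ha : 1 ≤ a := by
    rcases Nat.eq_zero_or_pos a with h | h
    · subst h
      simp at hka
      omega
    · exact h
  have hex : ∃ p, 6 * k ≤ p ^ 3 := ⟨2 ^ a, by
    rw [← pow_mul, mul_comm a 3, pow_mul]
    norm_num
    exact hka⟩
  set p := Nat.find hex with hp
  have hp1 : 6 * k ≤ p ^ 3 := Nat.find_spec hex
  have hp2 : p ≤ 2 ^ a := Nat.find_min' hex (by
    rw [← pow_mul, mul_comm a 3, pow_mul]
    norm_num
    exact hka)
  have hp21 : 21 ≤ p := by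
    by_contra hcon
    push Not at hcon
    have h1 : p ≤ 20 := by omega
    have h2 : p ^ 3 ≤ 20 ^ 3 := Nat.pow_le_pow_left h1 3
    omega
  have hp3 : (p - 1) ^ 3 < 6 * k := by
    have := Nat.find_min hex (m := p - 1) (by omega)
    omega
  have hgrid : GridIn (fun _ : Fin 3 => p)
      (fun x : Fin 3 → Str m => Function.Injective x ∧ Finset.univ.image x ∈ E) := by
    by_contra hno
    have h1 := hG (Fin 3) m w (fun _ => p) (fun _ => a)
      (fun x : Fin 3 → Str m => Function.Injective x ∧ Finset.univ.image x ∈ E)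
      (by simp; omega) (fun _ => hp2) (by unfold HyperWidth at hW; convert hW) hno
    have h2 := hO m 3 E hcard
    have h3 : Nat.factorial 3 = 6 := rfl
    rw [h3] at h2
    have h4 : Nat.card {x : Fin 3 → Str m // Function.Injective x ∧ Finset.univ.image x ∈ E} =
      6 * E.card := by
      convert h2
    rw [h4] at h1
    simp only [Fintype.card_fin, Finset.sum_const, Finset.card_univ, smul_eq_mul] at h1
    have h5 : (2 : ℕ) ^ (3 - 1) = 4 := by norm_num
    rw [h5] at h1
    omega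
  obtain ⟨T, hT1, hT2, hT3⟩ := hE m 3 k p E (by norm_num)
    (by rw [show Nat.factorial 3 = 6 from rfl]; exact hp1) (by convert hgrid)
  refine ⟨T, hT1, hT2, ?_⟩
  have h6 := bes3_poly p hp21
  have h7 : (T.biUnion id).card ≤ 3 * p ^ (3 - 1) := by
    convert hT3
  have h8 : (3 : ℕ) - 1 = 2 := rfl
  rw [h8] at h7
  have h9 : (T.biUnion id).card ≤ k + 3 := by omega
  convert h9

end Pool.Agent.H607R2.BW
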