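import Pool.Agent.H607R2.BW.Defs

/-!
Brown-Erdos-Sos for uniform hypergraphs of small width.
-/

set_option autoImplicit false

namespace Pool.Agent.H607R2.BW

theorem t_BESR (hG : S_GRID) (hE : S_EDG) (hO : S_ORD) : S_BESR := by
  classical
  intro r m w e E hr hcard hW he hlt
  have hfac : 1 ≤ r.factorial := Nat.factorial_pos r
  set K : ℕ := r * 2 ^ r * r.factorial with hK
  have h2r : 1 ≤ 2 ^ r := Nat.one_le_two_pow
  have hK1 : 3 ≤ K := by
    rw [hK]
    calc 3 ≤ r := hr
      _ = r * 1 * 1 := by ring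
      _ ≤ r * 2 ^ r * r.factorial := by gcongr
  have he1 : 3 ≤ e := by
    refine le_trans ?_ he
    calc 3 ≤ K := hK1
      _ = K ^ 1 := (pow_one K).symm
      _ ≤ K ^ r := Nat.pow_le_pow_right (by omega) (by omega)
  have hex : ∃ a, r.factorial * e ≤ (2 ^ a) ^ r := by
    refine ⟨r.factorial * e, ?_⟩
    calc r.factorial * e ≤ 2 ^ (r.factorial * e) := Nat.lt_two_pow_self.le
      _ = (2 ^ (r.factorial * e)) ^ 1 := (pow_one _).symm
      _ ≤ (2 ^ (r.factorial * e)) ^ r := Nat.pow_le_pow_right Nat.one_le_two_pow (by omega)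
  set a := Nat.find hex with ha
  have ha1 : r.factorial * e ≤ (2 ^ a) ^ r := Nat.find_spec hex
  have hre : 3 ≤ r.factorial * e := by
    calc 3 ≤ e := he1
      _ = 1 * e := (one_mul e).symm
      _ ≤ r.factorial * e := Nat.mul_le_mul_right e hfac
  have ha0 : 1 ≤ a := by
    rcases Nat.eq_zero_or_pos a with h | h
    · rw [h] at ha1
      simp at ha1
      omega
    · exact h
  have ha2 : (2 ^ (a - 1)) ^ r < r.factorial * e := by
    have := Nat.find_min hex (m := a - 1) (by omega)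
    omega
  have hpr : (2 ^ a) ^ r = 2 ^ r * (2 ^ (a - 1)) ^ r := by
    rw [← mul_pow, ← pow_succ']
    congr 2
    omega
  have hlog : r * a - 1 ≤ Nat.log 2 (2 ^ r * r.factorial * e) := by
    apply Nat.le_log_of_pow_le (by norm_num)
    calc 2 ^ (r * a - 1) ≤ 2 ^ (r * a) := Nat.pow_le_pow_right (by norm_num) (by omega)
      _ = (2 ^ a) ^ r := by rw [← pow_mul, mul_comm]
      _ = 2 ^ r * (2 ^ (a - 1)) ^ r := hpr
      _ ≤ 2 ^ r * (r.factorial * e) := Nat.mul_le_mul_left _ ha2.le
      _ = 2 ^ r * r.factorial * e := by ring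
  have hgrid : GridIn (fun _ : Fin r => 2 ^ a)
      (fun x : Fin r → Str m => Function.Injective x ∧ Finset.univ.image x ∈ E) := by
    by_contra hno
    have : Nonempty (Fin r) := ⟨⟨0, by omega⟩⟩
    have h1 := hG (Fin r) m w (fun _ => 2 ^ a) (fun _ => a)
      (fun x : Fin r → Str m => Function.Injective x ∧ Finset.univ.image x ∈ E)
      (by simp; omega) (fun _ => le_rfl) (by unfold HyperWidth at hW; convert hW) hno
    have h2 := hO m r E hcard
    have h4 : Nat.card {x : Fin r → Str m // Function.Injective x ∧ Finset.univ.image x ∈ E} =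
      r.factorial * E.card := by
      convert h2
    rw [h4] at h1
    simp only [Fintype.card_fin, Finset.sum_const, Finset.card_univ, smul_eq_mul] at h1
    have h5 : (1 + 2 ^ (r - 1) * w * m) ^ (r * a - 1) ≤
        (1 + 2 ^ (r - 1) * w * m) ^ (Nat.log 2 (2 ^ r * r.factorial * e)) :=
      Nat.pow_le_pow_right (by omega) hlog
    have h6 : 2 ^ m * (w * (1 + 2 ^ (r - 1) * w * m) ^ (r * a - 1)) ≤
        2 ^ m * (w * (1 + 2 ^ (r - 1) * w * m) ^ (Nat.log 2 (2 ^ r * r.factorial * e))) :=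
      Nat.mul_le_mul_left _ (Nat.mul_le_mul_left _ h5)
    omega
  obtain ⟨T, hT1, hT2, hT3⟩ := hE m r e (2 ^ a) E (by omega) ha1 (by convert hgrid)
  refine ⟨T, hT1, hT2, ?_⟩
  have h7 : (T.biUnion id).card ≤ r * (2 ^ a) ^ (r - 1) := by
    convert hT3
  have hKp : K ≤ 2 ^ a := by
    have h8 : K ^ r ≤ (2 ^ a) ^ r := by
      calc K ^ r ≤ e := he
        _ = 1 * e := (one_mul e).symm
        _ ≤ r.factorial * e := Nat.mul_le_mul_right e hfac
        _ ≤ (2 ^ a) ^ r := ha1
    exact (Nat.pow_le_pow_iff_left (by omega)).1 h8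
  have h9 : r * (2 ^ a) ^ (r - 1) * K < e * K := by
    calc r * (2 ^ a) ^ (r - 1) * K ≤ r * (2 ^ a) ^ (r - 1) * 2 ^ a :=
          Nat.mul_le_mul_left _ hKp
      _ = r * (2 ^ a) ^ r := by
          rw [mul_assoc, ← pow_succ]
          congr 2
          omega
      _ = r * (2 ^ r * (2 ^ (a - 1)) ^ r) := by rw [hpr]
      _ < r * (2 ^ r * (r.factorial * e)) := by
          apply Nat.mul_lt_mul_of_pos_left _ (by omega)
          exact Nat.mul_lt_mul_of_pos_left ha2 (by omega)
      _ = e * K := by rw [hK]; ring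
  have h10 : r * (2 ^ a) ^ (r - 1) < e := lt_of_mul_lt_mul_right h9 (Nat.zero_le K)
  have h11 : e ≤ (r - 2) * e := by
    calc e = 1 * e := (one_mul e).symm
      _ ≤ (r - 2) * e := Nat.mul_le_mul_right e (by omega)
  have h12 : (T.biUnion id).card ≤ (r - 2) * e + 3 := by omega
  convert h12

end Pool.Agent.H607R2.BW
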