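import Pool.Agent.H607R2.BW.Defs

namespace Pool.Agent.H607R2.BW

open Finset

theorem CORE_run_append {σ A : Type} (δ : ℕ → σ → A → σ) (x y : List A) (p : ℕ) (s : σ) :
    run δ p s (x ++ y) = run δ (p + x.length) (run δ p s x) y := by
  induction x generalizing p s with
  | nil => simp [run]
  | cons a x ih =>
    simp only [List.cons_append, run, List.length_cons]
    rw [ih]
    congr 1
    omega

/-- words of length `n` -/
noncomputable def COREw (A : Type) [Fintype A] (n : ℕ) : Finset (List A) :=
  open Classical in (Finset.univ : Finset (Fin n → A)).image List.ofFn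

theorem CORE_mem {A : Type} [Fintype A] {n : ℕ} {x : List A} : x ∈ COREw A n ↔ x.length = n := by
  classical
  unfold COREw
  simp only [Finset.mem_image, Finset.mem_univ, true_and]
  constructor
  · rintro ⟨f, rfl⟩
    simp
  · rintro rfl
    exact ⟨x.get, List.ofFn_get x⟩

theorem CORE_card (A : Type) [Fintype A] (n : ℕ) : (COREw A n).card = Fintype.card A ^ n := by
  classical
  unfold COREw
  rw [Finset.card_image_of_injective _ List.ofFn_injective]
  simp

section

variable {ι : Type} [Fintype ι] {w : ℕ} (δ : ℕ → Fin w → (ι → Bool) → Fin w)

/-- words of length `q` leading from `s` to `s'` -/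
noncomputable def COREB (p q : ℕ) (s s' : Fin w) : Finset (List (ι → Bool)) :=
  open Classical in (COREw (ι → Bool) q).filter (fun x => run δ p s x = s')

/-- accepted words -/
noncomputable def COREX (acc : Set (Fin w)) (p n : ℕ) (s : Fin w) : Finset (List (ι → Bool)) :=
  open Classical in (COREw (ι → Bool) n).filter (fun x => run δ p s x ∈ acc)

/-- boxes in sets of words -/
def COREbox (τ : List ι) (S : Finset (List (ι → Bool))) : Prop :=
  ∃ φ : List Bool → List (ι → Bool),
    (∀ b, b.length = τ.length → φ b ∈ S) ∧
    (∀ b b', b.length = τ.length → b'.length = τ.length → φ b = φ b' → b = b') ∧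
    (∀ (j : ι) (b b' : List Bool), b.length = τ.length → b'.length = τ.length →
      (∀ k : ℕ, τ[k]? ≠ some j → b[k]? = b'[k]?) →
      (φ b).map (fun a => a j) = (φ b').map (fun a => a j))

/-- two words with the same `j`-th coordinate -/
def COREgood (p : ℕ) (s : Fin w) (j : ι) (q : ℕ) (s' : Fin w) : Prop :=
  ∃ e ∈ COREB δ p q s s', ∃ f ∈ COREB δ p q s s', e ≠ f ∧
    e.map (fun a => a j) = f.map (fun a => a j)

theorem CORE_box_nil {S : Finset (List (ι → Bool))} (h : ¬ COREbox ([] : List ι) S) : S = ∅ := by
  by_contra hS
  obtain ⟨x, hx⟩ := Finset.nonempty_iff_ne_empty.2 hS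
  apply h
  refine ⟨fun _ => x, fun _ _ => hx, ?_, fun _ _ _ _ _ _ => rfl⟩
  intro b b' hb hb' _
  simp only [List.length_nil, List.length_eq_zero_iff] at hb hb'
  simp [hb, hb']

theorem CORE_box_cons (acc : Set (Fin w)) {p q n : ℕ} {s s' : Fin w} {j : ι} {τ : List ι}
    (hq : q ≤ n) (hg : COREgood δ p s j q s')
    (hb : COREbox τ (COREX δ acc (p + q) (n - q) s')) :
    COREbox (j :: τ) (COREX δ acc p n s) := by
  classical
  obtain ⟨e, he, f, hf, hef, hj⟩ := hg
  obtain ⟨φ, h1, h2, h3⟩ := hb
  simp only [COREB, Finset.mem_filter, CORE_mem] at he hf
  refine ⟨fun b => match b with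
    | [] => []
    | c :: b => (if c then e else f) ++ φ b, ?_, ?_, ?_⟩
  · intro b hb
    match b, hb with
    | c :: b, hb =>
      have hb' : b.length = τ.length := by simpa using hb
      have h := h1 b hb'
      simp only [COREX, Finset.mem_filter, CORE_mem] at h ⊢
      have hlen : (if c then e else f).length = q := by
        cases c
        · simpa using hf.1
        · simpa using he.1
      have hrun : run δ p s (if c then e else f) = s' := by
        cases c
        · simpa using hf.2
        · simpa using he.2
      refine ⟨?_, ?_⟩
      · rw [List.length_append, hlen, h.1]; omega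
      · rw [CORE_run_append, hlen, hrun]; exact h.2
  · intro b b' hb hb' heq
    match b, hb, b', hb', heq with
    | c :: b, hb, c' :: b', hb', heq =>
      have hb1 : b.length = τ.length := by simpa using hb
      have hb2 : b'.length = τ.length := by simpa using hb'
      have hlen : ∀ c : Bool, (if c then e else f).length = q := by
        intro c
        cases c
        · simpa using hf.1
        · simpa using he.1
      have h := List.append_inj heq (by rw [hlen, hlen])
      have h4 := h2 b b' hb1 hb2 h.2
      have h5 : c = c' := by
        have h6 := h.1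
        cases c <;> cases c' <;> simp_all
      rw [h4, h5]
  · intro i b b' hb hb' hag
    match b, hb, b', hb', hag with
    | c :: b, hb, c' :: b', hb', hag =>
      have hb1 : b.length = τ.length := by simpa using hb
      have hb2 : b'.length = τ.length := by simpa using hb'
      simp only [List.map_append]
      have h4 : (φ b).map (fun a => a i) = (φ b').map (fun a => a i) := by
        apply h3 i b b' hb1 hb2
        intro k hk
        have := hag (k + 1) (by simpa using hk)
        simpa using this
      have h5 : (if c then e else f).map (fun a => a i) =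
          (if c' then e else f).map (fun a => a i) := by
        by_cases hij : i = j
        · subst hij
          cases c <;> cases c' <;> simp [hj]
        · have := hag 0 (by simp only [List.getElem?_cons_zero, ne_eq, Option.some.injEq]; exact fun h => hij h.symm)
          simp only [List.getElem?_cons_zero, Option.some.injEq] at this
          rw [this]
      rw [h4, h5]

theorem CORE_notgood {p : ℕ} {s : Fin w} {j : ι} {q : ℕ} {s' : Fin w}
    (h : ¬ COREgood δ p s j q s') : (COREB δ p q s s').card ≤ 2 ^ q := by
  classical
  have h1 : ((COREB δ p q s s').image (fun x => x.map (fun a => a j))).card ≤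
      (COREw Bool q).card := by
    apply Finset.card_le_card
    intro y hy
    obtain ⟨x, hx, rfl⟩ := Finset.mem_image.1 hy
    simp only [COREB, Finset.mem_filter, CORE_mem] at hx
    rw [CORE_mem]
    simpa using hx.1
  rw [CORE_card, Fintype.card_bool] at h1
  refine le_trans (le_of_eq ?_) h1
  rw [Finset.card_image_of_injOn]
  intro e he f hf hef
  by_contra hne
  exact h ⟨e, he, f, hf, hne, hef⟩

theorem CORE_first (G : ℕ → Prop) (n : ℕ) (h0 : ¬ G 0) (hn : G n) :
    ∃ q < n, ¬ G q ∧ G (q + 1) := by
  induction n with
  | zero => exact absurd hn h0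
  | succ n ih =>
    by_cases h : G n
    · obtain ⟨q, hq, h1, h2⟩ := ih h
      exact ⟨q, by omega, h1, h2⟩
    · exact ⟨n, by omega, h, hn⟩

/-- the factor in the bound -/
def COREK (C w n : ℕ) : ℕ → ℕ
  | 0 => 0
  | (t + 1) => w * (1 + C * w * n) ^ t

theorem CORE_K_mono (C w : ℕ) {n n' : ℕ} (h : n ≤ n') (t : ℕ) :
    COREK C w n t ≤ COREK C w n' t := by
  cases t with
  | zero => simp [COREK]
  | succ t =>
    simp only [COREK]
    gcongr

theorem CORE_K_succ (C w n t : ℕ) : w * (1 + n * (C * COREK C w n t)) ≤ COREK C w n (t + 1) := by
  cases t with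
  | zero => simp [COREK]
  | succ t =>
    simp only [COREK]
    apply Nat.mul_le_mul_left
    have h : 1 ≤ (1 + C * w * n) ^ t := Nat.one_le_pow _ _ (by omega)
    calc 1 + n * (C * (w * (1 + C * w * n) ^ t)) = 1 + (C * w * n) * (1 + C * w * n) ^ t := by ring
      _ ≤ (1 + C * w * n) ^ t + (C * w * n) * (1 + C * w * n) ^ t := by omega
      _ = (1 + C * w * n) ^ (t + 1) := by ring

theorem CORE_main [Nonempty ι] (acc : Set (Fin w)) (τ : List ι) : ∀ (p n : ℕ) (s : Fin w),
    ¬ COREbox τ (COREX δ acc p n s) →
    (COREX δ acc p n s).card ≤ 2 ^ n * COREK (2 ^ (Fintype.card ι - 1)) w n τ.length := by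
  classical
  induction τ with
  | nil =>
    intro p n s h
    rw [CORE_box_nil h]
    simp
  | cons j τ ih =>
    intro p n s h
    set C := 2 ^ (Fintype.card ι - 1) with hC
    have hCι : Fintype.card (ι → Bool) = 2 * C := by
      rw [Fintype.card_fun, Fintype.card_bool, hC, ← pow_succ']
      congr 1
      have := Fintype.card_pos (α := ι)
      omega
    -- pieces
    let Z : ℕ → Fin w → (ι → Bool) → Finset (List (ι → Bool)) := fun q s' a =>
      if COREgood δ p s j q s' then ∅ else
        if COREgood δ p s j (q + 1) (δ (p + q) s' a) then
          (COREB δ p q s s' ×ˢ COREX δ acc (p + q + 1) (n - (q + 1)) (δ (p + q) s' a)).image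
            (fun yz => yz.1 ++ a :: yz.2)
        else ∅
    let N : Fin w → Finset (List (ι → Bool)) := fun s' =>
      if COREgood δ p s j n s' then ∅ else COREB δ p n s s'
    have hcover : COREX δ acc p n s ⊆ (Finset.univ.biUnion N) ∪
        ((Finset.range n).biUnion (fun q => Finset.univ.biUnion (fun s' =>
          Finset.univ.biUnion (fun a => Z q s' a)))) := by
      intro x hx
      have hx' := hx
      simp only [COREX, Finset.mem_filter, CORE_mem] at hx'
      obtain ⟨hxn, hxa⟩ := hx'
      rw [Finset.mem_union]
      by_cases hg : COREgood δ p s j n (run δ p s x)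
      · right
        obtain ⟨q, hq, h1, h2⟩ := CORE_first
          (fun q => COREgood δ p s j q (run δ p s (x.take q))) n (by
            rintro ⟨e, he, f, hf, hef, _⟩
            simp only [COREB, Finset.mem_filter, CORE_mem, List.length_eq_zero_iff] at he hf
            exact hef (he.1.trans hf.1.symm)) (by
            have : x.take n = x := by rw [← hxn]; exact List.take_length
            rw [this]; exact hg)
        have hqx : q < x.length := by omega
        have hlen : (x.take q).length = q := by simp; omega
        have htake : x.take (q + 1) = x.take q ++ [x[q]] := by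
          rw [List.take_append_getElem]
        have hrun1 : run δ p s (x.take (q + 1)) =
            δ (p + q) (run δ p s (x.take q)) (x[q]) := by
          rw [htake, CORE_run_append, hlen]; rfl
        have hsplit : x = x.take q ++ x[q] :: x.drop (q + 1) := by
          have := List.take_append_drop (q + 1) x
          rw [htake] at this
          simpa using this.symm
        simp only [Finset.mem_biUnion, Finset.mem_range, Finset.mem_univ, true_and]
        refine ⟨q, hq, run δ p s (x.take q), x[q], ?_⟩
        have h2' : COREgood δ p s j (q + 1) (δ (p + q) (run δ p s (x.take q)) (x[q])) := by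
          rw [← hrun1]; exact h2
        have h1' : ¬ COREgood δ p s j q (run δ p s (x.take q)) := h1
        simp only [Z]
        rw [if_neg h1', if_pos h2', Finset.mem_image]
        refine ⟨(x.take q, x.drop (q + 1)), ?_, hsplit.symm⟩
        rw [Finset.mem_product]
        constructor
        · simp only [COREB, Finset.mem_filter, CORE_mem]
          exact ⟨hlen, trivial⟩
        · simp only [COREX, Finset.mem_filter, CORE_mem]
          refine ⟨by rw [List.length_drop, hxn], ?_⟩
          have h3 := hxa
          rw [← List.take_append_drop (q + 1) x, CORE_run_append, hrun1] at h3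
          have h4 : (x.take (q + 1)).length = q + 1 := by simp; omega
          rw [h4] at h3
          exact h3
      · left
        simp only [Finset.mem_biUnion, Finset.mem_univ, true_and]
        refine ⟨run δ p s x, ?_⟩
        simp only [N]
        rw [if_neg hg]
        simp only [COREB, Finset.mem_filter, CORE_mem]
        exact ⟨hxn, trivial⟩
    have hN : ∀ s', (N s').card ≤ 2 ^ n := by
      intro s'
      simp only [N]
      split_ifs with hg
      · simp
      · exact CORE_notgood δ hg
    have hZ : ∀ q ∈ Finset.range n, ∀ s' a, (Z q s' a).card ≤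
        2 ^ (n - 1) * COREK C w n τ.length := by
      intro q hq s' a
      rw [Finset.mem_range] at hq
      simp only [Z]
      split_ifs with hg1 hg2
      · simp
      · refine le_trans Finset.card_image_le ?_
        rw [Finset.card_product]
        have h1 := CORE_notgood δ hg1
        have h2 : ¬ COREbox τ (COREX δ acc (p + q + 1) (n - (q + 1)) (δ (p + q) s' a)) := by
          intro hb
          exact h (CORE_box_cons δ acc (by omega) hg2 hb)
        have h3 := ih (p + q + 1) (n - (q + 1)) (δ (p + q) s' a) h2
        have h4 : COREK C w (n - (q + 1)) τ.length ≤ COREK C w n τ.length :=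
          CORE_K_mono C w (by omega) _
        calc (COREB δ p q s s').card *
            (COREX δ acc (p + q + 1) (n - (q + 1)) (δ (p + q) s' a)).card
            ≤ 2 ^ q * (2 ^ (n - (q + 1)) * COREK C w n τ.length) := by
              apply Nat.mul_le_mul h1
              exact le_trans h3 (Nat.mul_le_mul_left _ h4)
          _ = 2 ^ (n - 1) * COREK C w n τ.length := by
              rw [← mul_assoc, ← pow_add]
              congr 2
              omega
      · simp
    have hcard : (COREX δ acc p n s).card ≤ w * 2 ^ n +
        n * (w * ((2 * C) * (2 ^ (n - 1) * COREK C w n τ.length))) := by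
      refine le_trans (Finset.card_le_card hcover) ?_
      refine le_trans (Finset.card_union_le _ _) ?_
      apply Nat.add_le_add
      · refine le_trans Finset.card_biUnion_le ?_
        refine le_trans (Finset.sum_le_card_nsmul _ _ (2 ^ n) (fun s' _ => hN s')) ?_
        simp
      · refine le_trans Finset.card_biUnion_le ?_
        refine le_trans (Finset.sum_le_card_nsmul _ _
          (w * ((2 * C) * (2 ^ (n - 1) * COREK C w n τ.length))) ?_) ?_
        · intro q hq
          refine le_trans Finset.card_biUnion_le ?_
          refine le_trans (Finset.sum_le_card_nsmul _ _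
            ((2 * C) * (2 ^ (n - 1) * COREK C w n τ.length)) ?_) ?_
          · intro s' _
            refine le_trans Finset.card_biUnion_le ?_
            refine le_trans (Finset.sum_le_card_nsmul _ _
              (2 ^ (n - 1) * COREK C w n τ.length) (fun a _ => hZ q hq s' a)) ?_
            rw [Finset.card_univ, hCι, smul_eq_mul]
          · rw [Finset.card_univ, Fintype.card_fin, smul_eq_mul]
        · rw [Finset.card_range, smul_eq_mul]
    refine le_trans hcard ?_
    rw [List.length_cons]
    have hK := CORE_K_succ C w n τ.length
    calc w * 2 ^ n + n * (w * ((2 * C) * (2 ^ (n - 1) * COREK C w n τ.length)))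
        ≤ w * 2 ^ n + n * (w * (C * (2 ^ n * COREK C w n τ.length))) := by
          rcases Nat.eq_zero_or_pos n with rfl | hn
          · simp
          · have : 2 ^ n = 2 * 2 ^ (n - 1) := by
              rw [← pow_succ']; congr 1; omega
            rw [this]
            apply le_of_eq
            ring
      _ = 2 ^ n * (w * (1 + n * (C * COREK C w n τ.length))) := by ring
      _ ≤ 2 ^ n * COREK C w n (τ.length + 1) := Nat.mul_le_mul_left _ hK

end

/-- the strings of a word -/
def COREun {ι : Type} (m : ℕ) (l : List (ι → Bool)) : ι → Str m :=
  fun j t => ((l.map (fun a => a j))[(t : ℕ)]?).getD false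

theorem CORE_word_un {ι : Type} (m : ℕ) (l : List (ι → Bool)) (hl : l.length = m) :
    word (COREun m l) = l := by
  apply List.ext_getElem?
  intro k
  unfold word COREun
  rw [List.getElem?_ofFn]
  split_ifs with hk
  · have hk' : k < l.length := by omega
    rw [List.getElem?_eq_getElem hk']
    congr 1
    funext j
    simp [hk']
  · have hk' : l.length ≤ k := by omega
    rw [List.getElem?_eq_none hk']

theorem CORE_word_inj {ι : Type} {m : ℕ} : Function.Injective (word (ι := ι) (m := m)) := by
  intro x y h
  have h1 := List.ofFn_injective h
  funext j t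
  exact congrFun (congrFun h1 t) j

theorem CORE_word_length {ι : Type} {m : ℕ} (x : ι → Str m) : (word x).length = m := by
  simp [word]

theorem t_CORE : S_CORE := by
  classical
  intro ι _ _ m w A τ R hA hR hno
  obtain ⟨δ, s, acc, hδ⟩ := hR
  have hcard : Nat.card {x : ι → Str m // R x} = (COREX δ acc 0 m s).card := by
    have h1 : COREX δ acc 0 m s = (Finset.univ.filter (fun x : ι → Str m => R x)).image word := by
      ext l
      simp only [COREX, Finset.mem_filter, CORE_mem, Finset.mem_image, Finset.mem_univ, true_and]
      constructor
      · rintro ⟨h1, h2⟩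
        refine ⟨COREun m l, ?_, CORE_word_un m l h1⟩
        rw [hδ, CORE_word_un m l h1]
        exact h2
      · rintro ⟨x, hx, rfl⟩
        exact ⟨CORE_word_length x, (hδ x).1 hx⟩
    rw [h1, Finset.card_image_of_injective _ CORE_word_inj, Nat.card_eq_fintype_card,
      Fintype.card_subtype]
  have hbox : ¬ COREbox (List.ofFn τ) (COREX δ acc 0 m s) := by
    rintro ⟨φ, h1, h2, h3⟩
    apply hno
    have hmem : ∀ β : Fin A → Bool, (φ (List.ofFn β)).length = m ∧
        run δ 0 s (φ (List.ofFn β)) ∈ acc := by
      intro β
      have := h1 (List.ofFn β) (by simp)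
      simpa only [COREX, Finset.mem_filter, CORE_mem] using this
    refine ⟨fun β => COREun m (φ (List.ofFn β)), ?_, ?_, ?_⟩
    · intro β
      rw [hδ, CORE_word_un m _ (hmem β).1]
      exact (hmem β).2
    · intro β β' h
      have h' := congrArg word h
      simp only at h'
      rw [CORE_word_un m _ (hmem β).1, CORE_word_un m _ (hmem β').1] at h'
      exact List.ofFn_injective (h2 _ _ (by simp) (by simp) h')
    · intro j β β' hag
      have h4 := h3 j (List.ofFn β) (List.ofFn β') (by simp) (by simp) (by
        intro k hk
        rw [List.getElem?_ofFn] at hk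
        rw [List.getElem?_ofFn, List.getElem?_ofFn]
        split_ifs with hkA
        · rw [dif_pos hkA] at hk
          congr 1
          exact hag ⟨k, hkA⟩ (fun h => hk (by rw [h]))
        · rfl)
      funext t
      simp only [COREun]
      rw [h4]
  have hmain := CORE_main δ acc (List.ofFn τ) 0 m s hbox
  rw [hcard]
  refine le_trans hmain ?_
  obtain ⟨t, rfl⟩ : ∃ t, A = t + 1 := ⟨A - 1, by omega⟩
  simp [COREK]

end Pool.Agent.H607R2.BW
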