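import Pool.Agent.H607R2.BW.Defs2
import Pool.Agent.H607R2.BW.CORE

/-!
# Corner-free sets of bounded width
-/

namespace Pool.Agent.H607R2.BW

open Finset

/-- adding `z` to the `i`-th string -/
def CORNa (i : Fin 2) (l : List (Fin 2 → Bool)) (z : List Bool) : List (Fin 2 → Bool) :=
  List.zipWith (fun a b j => if j = i then xor (a j) b else a j) l z

/-- corner-free sets of words -/
def CORNfree (S : Finset (List (Fin 2 → Bool))) : Prop :=
  ∀ l ∈ S, ∀ z : List Bool, z.length = l.length → CORNa 0 l z ∈ S → CORNa 1 l z ∈ S →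
    ∀ b ∈ z, b = false

theorem CORN_append (i : Fin 2) {u : List (Fin 2 → Bool)} {z : List Bool} (h : u.length = z.length)
    (l : List (Fin 2 → Bool)) (z' : List Bool) :
    CORNa i (u ++ l) (z ++ z') = CORNa i u z ++ CORNa i l z' := by
  unfold CORNa
  rw [List.zipWith_append h]

theorem CORN_zero (i : Fin 2) (u : List (Fin 2 → Bool)) :
    CORNa i u (List.replicate u.length false) = u := by
  unfold CORNa
  induction u with
  | nil => rfl
  | cons a u ih =>
    rw [List.length_cons, List.replicate_succ, List.zipWith_cons_cons, ih]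
    congr 1
    funext j
    simp

/-- the word of a pair -/
def CORNw {L : ℕ} (a b : Fin L → ZMod 2) : List (Fin 2 → Bool) :=
  List.ofFn (fun t => ![decide (a t = 1), decide (b t = 1)])

theorem CORN_z1 : ∀ a b c d : ZMod 2, a + d = c + b →
    xor (decide (b = 1)) (xor (decide (a = 1)) (decide (c = 1))) = decide (d = 1) := by
  decide

theorem CORN_z2 : ∀ a b : ZMod 2, xor (decide (a = 1)) (decide (b = 1)) = false → a = b := by
  decide

theorem CORN_z3 : ∀ a b : ZMod 2, decide (a = 1) = decide (b = 1) → a = b := by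
  decide

theorem CORN_L (w : ℕ) (hw : 0 < w) : ∃ L : ℕ, 0 < L ∧ ∀ S : Finset (List (Fin 2 → Bool)),
    (∀ l ∈ S, l.length = L) → CORNfree S → 2 * w * S.card ≤ 4 ^ L := by
  classical
  set ε : ℝ := 1 / (2 * w) with hε
  have hw' : (0 : ℝ) < w := by exact_mod_cast hw
  have hε0 : 0 < ε := by positivity
  obtain ⟨L0, hL0⟩ : ∃ L0 : ℕ, cornersTheoremBound ε ≤ 2 ^ L0 :=
    ⟨cornersTheoremBound ε, (Nat.lt_two_pow_self).le⟩
  obtain ⟨L, hL⟩ : ∃ L : ℕ, L = L0 + 1 := ⟨_, rfl⟩
  refine ⟨L, by omega, ?_⟩
  intro S hS hfree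
  have hL1 : cornersTheoremBound ε ≤ Fintype.card (Fin L → ZMod 2) := by
    rw [Fintype.card_fun, ZMod.card, Fintype.card_fin]
    refine le_trans hL0 (Nat.pow_le_pow_right (by norm_num) (by omega))
  by_contra hcon
  push Not at hcon
  set A : Finset ((Fin L → ZMod 2) × (Fin L → ZMod 2)) :=
    Finset.univ.filter (fun ab => CORNw ab.1 ab.2 ∈ S) with hA
  have hmemA : ∀ a b, (a, b) ∈ A ↔ CORNw a b ∈ S := by
    intro a b
    rw [hA, Finset.mem_filter]
    simp
  have hcard : S.card ≤ A.card := by
    have h1 : S ⊆ A.image (fun ab => CORNw ab.1 ab.2) := by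
      intro l hl
      rw [Finset.mem_image]
      have hlen := hS l hl
      obtain ⟨a, b, h2⟩ : ∃ a b : Fin L → ZMod 2, CORNw a b = l := by
        refine ⟨fun t : Fin L => if (l[(t : ℕ)]'(by omega)) 0 = true then (1 : ZMod 2) else 0,
          fun t : Fin L => if (l[(t : ℕ)]'(by omega)) 1 = true then (1 : ZMod 2) else 0, ?_⟩
        unfold CORNw
        apply List.ext_getElem
        · simp [hlen]
        · intro k hk1 hk2
          rw [List.getElem_ofFn]
          funext j
          fin_cases j
          · cases h : l[k] 0 <;> simp [h]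
          · cases h : l[k] 1 <;> simp [h]
      refine ⟨(a, b), ?_, h2⟩
      rw [hmemA, h2]
      exact hl
    exact le_trans (Finset.card_le_card h1) Finset.card_image_le
  have hAε : ε * (Fintype.card (Fin L → ZMod 2) : ℝ) ^ 2 ≤ A.card := by
    rw [Fintype.card_fun, ZMod.card, Fintype.card_fin, hε, div_mul_eq_mul_div, one_mul,
      div_le_iff₀ (by positivity)]
    have h1 : ((4 : ℝ)) ^ L ≤ 2 * w * S.card := by exact_mod_cast hcon.le
    have h2 : (S.card : ℝ) ≤ A.card := by exact_mod_cast hcard
    have h3 : (((2 ^ L : ℕ) : ℝ)) ^ 2 = 4 ^ L := by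
      push_cast
      rw [← pow_mul, mul_comm, pow_mul]
      norm_num
    rw [h3]
    calc (4 : ℝ) ^ L ≤ 2 * w * S.card := h1
      _ ≤ 2 * w * A.card := by gcongr
      _ = A.card * (2 * w) := by ring
  apply corners_theorem ε hε0 hL1 A hAε
  intro x1 y1 x2 y2 hc
  obtain ⟨c1, c2, c3, c4⟩ := hc
  rw [Finset.mem_coe, hmemA] at c1 c2 c3
  have hz := hfree _ c1 (List.ofFn (fun t => xor (decide (x1 t = 1)) (decide (x2 t = 1)))) (by
    simp [CORNw]) (by
      convert c3 using 1
      unfold CORNa CORNw
      apply List.ext_getElem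
      · simp
      · intro k hk1 hk2
        rw [List.getElem_zipWith, List.getElem_ofFn, List.getElem_ofFn, List.getElem_ofFn]
        funext j
        fin_cases j <;> simp) (by
      convert c2 using 1
      unfold CORNa CORNw
      apply List.ext_getElem
      · simp
      · intro k hk1 hk2
        rw [List.getElem_zipWith, List.getElem_ofFn, List.getElem_ofFn, List.getElem_ofFn]
        have hk : k < L := by simpa using hk2
        have := CORN_z1 (x1 ⟨k, hk⟩) (y1 ⟨k, hk⟩) (x2 ⟨k, hk⟩) (y2 ⟨k, hk⟩)
          (congrFun c4 ⟨k, hk⟩)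
        funext j
        fin_cases j
        · simp
        · simpa using this)
  funext t
  apply CORN_z2
  apply hz
  rw [List.mem_ofFn]
  exact ⟨t, rfl⟩

section

variable {w : ℕ} (δ : ℕ → Fin w → (Fin 2 → Bool) → Fin w)

theorem CORN_len_a (i : Fin 2) (l : List (Fin 2 → Bool)) (z : List Bool)
    (h : z.length = l.length) : (CORNa i l z).length = l.length := by
  simp [CORNa, h]

theorem CORN_memX (acc : Set (Fin w)) {p n : ℕ} {s : Fin w} {l : List (Fin 2 → Bool)} :
    l ∈ COREX δ acc p n s ↔ l.length = n ∧ run δ p s l ∈ acc := by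
  classical
  simp only [COREX, Finset.mem_filter, CORE_mem]

theorem CORN_memB {p q : ℕ} {s s' : Fin w} {l : List (Fin 2 → Bool)} :
    l ∈ COREB δ p q s s' ↔ l.length = q ∧ run δ p s l = s' := by
  classical
  simp only [COREB, Finset.mem_filter, CORE_mem]

theorem CORN_app (acc : Set (Fin w)) {p q n : ℕ} (hq : q ≤ n) {s s' : Fin w}
    {l v : List (Fin 2 → Bool)} (hl : l ∈ COREB δ p q s s')
    (hv : v ∈ COREX δ acc (p + q) (n - q) s') : l ++ v ∈ COREX δ acc p n s := by
  rw [CORN_memB] at hl
  rw [CORN_memX] at hv ⊢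
  refine ⟨by rw [List.length_append, hl.1, hv.1]; omega, ?_⟩
  rw [CORE_run_append, hl.1, hl.2]
  exact hv.2

theorem CORN_B (acc : Set (Fin w)) {p q n : ℕ} (hq : q ≤ n) {s s' : Fin w}
    (h : CORNfree (COREX δ acc p n s)) {v : List (Fin 2 → Bool)}
    (hv : v ∈ COREX δ acc (p + q) (n - q) s') : CORNfree (COREB δ p q s s') := by
  intro l hl z hz h0 h1 b hb
  refine h (l ++ v) (CORN_app δ acc hq hl hv) (z ++ List.replicate v.length false)
    (by simp [hz]) ?_ ?_ b (by simp [hb])
  · rw [CORN_append _ hz.symm, CORN_zero]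
    exact CORN_app δ acc hq h0 hv
  · rw [CORN_append _ hz.symm, CORN_zero]
    exact CORN_app δ acc hq h1 hv

theorem CORN_X (acc : Set (Fin w)) {p q n : ℕ} (hq : q ≤ n) {s s' : Fin w}
    (h : CORNfree (COREX δ acc p n s)) {u : List (Fin 2 → Bool)}
    (hu : u ∈ COREB δ p q s s') : CORNfree (COREX δ acc (p + q) (n - q) s') := by
  intro l hl z hz h0 h1 b hb
  refine h (u ++ l) (CORN_app δ acc hq hu hl) (List.replicate u.length false ++ z)
    (by simp [hz]) ?_ ?_ b (by simp [hb])
  · rw [CORN_append _ (by simp), CORN_zero]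
    exact CORN_app δ acc hq hu h0
  · rw [CORN_append _ (by simp), CORN_zero]
    exact CORN_app δ acc hq hu h1

theorem CORN_main (acc : Set (Fin w)) (L : ℕ) (hw : 0 < w)
    (hL : ∀ S : Finset (List (Fin 2 → Bool)),
      (∀ l ∈ S, l.length = L) → CORNfree S → 2 * w * S.card ≤ 4 ^ L) (k : ℕ) :
    ∀ (p n : ℕ) (s : Fin w), k * L ≤ n → CORNfree (COREX δ acc p n s) →
      (COREX δ acc p n s).card * 2 ^ k ≤ 4 ^ n := by
  classical
  induction k with
  | zero =>
    intro p n s _ _
    rw [pow_zero, mul_one]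
    have h1 : (COREX δ acc p n s).card ≤ (COREw (Fin 2 → Bool) n).card :=
      Finset.card_le_card (fun l hl => CORE_mem.2 ((CORN_memX δ acc).1 hl).1)
    rw [CORE_card] at h1
    simpa using h1
  | succ k ih =>
    intro p n s hk hfree
    have hkL : (k + 1) * L = k * L + L := by ring
    have hLn : L ≤ n := by omega
    have hk' : k * L ≤ n - L := by omega
    have hcover : COREX δ acc p n s ⊆ Finset.univ.biUnion (fun s' =>
        (COREB δ p L s s' ×ˢ COREX δ acc (p + L) (n - L) s').image (fun yz => yz.1 ++ yz.2)) := by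
      intro l hl
      rw [CORN_memX] at hl
      have hlt : (l.take L).length = L := by
        rw [List.length_take, hl.1]
        omega
      rw [Finset.mem_biUnion]
      refine ⟨run δ p s (l.take L), Finset.mem_univ _, ?_⟩
      rw [Finset.mem_image]
      refine ⟨(l.take L, l.drop L), ?_, List.take_append_drop L l⟩
      rw [Finset.mem_product, CORN_memB, CORN_memX]
      refine ⟨⟨hlt, rfl⟩, by rw [List.length_drop, hl.1], ?_⟩
      have h3 := hl.2
      rw [← List.take_append_drop L l, CORE_run_append, hlt] at h3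
      exact h3
    have h1 : (COREX δ acc p n s).card ≤
        ∑ s' : Fin w, (COREB δ p L s s').card * (COREX δ acc (p + L) (n - L) s').card := by
      refine le_trans (Finset.card_le_card hcover) ?_
      refine le_trans Finset.card_biUnion_le ?_
      apply Finset.sum_le_sum
      intro s' _
      refine le_trans Finset.card_image_le ?_
      rw [Finset.card_product]
    have h2 : ∀ s' : Fin w, (COREB δ p L s s').card * (COREX δ acc (p + L) (n - L) s').card *
        (2 ^ (k + 1) * w) ≤ 4 ^ n := by
      intro s'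
      rcases Finset.eq_empty_or_nonempty (COREB δ p L s s') with hB | ⟨u, hu⟩
      · rw [hB]
        simp
      rcases Finset.eq_empty_or_nonempty (COREX δ acc (p + L) (n - L) s') with hX | ⟨v, hv⟩
      · rw [hX]
        simp
      have h3 := hL (COREB δ p L s s') (fun l hl => ((CORN_memB δ).1 hl).1)
        (CORN_B δ acc hLn hfree hv)
      have h4 := ih (p + L) (n - L) s' hk' (CORN_X δ acc hLn hfree hu)
      calc (COREB δ p L s s').card * (COREX δ acc (p + L) (n - L) s').card * (2 ^ (k + 1) * w)
          = (2 * w * (COREB δ p L s s').card) *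
            ((COREX δ acc (p + L) (n - L) s').card * 2 ^ k) := by ring
        _ ≤ 4 ^ L * 4 ^ (n - L) := Nat.mul_le_mul h3 h4
        _ = 4 ^ n := by
            rw [← pow_add]
            congr 1
            omega
    have h5 : (COREX δ acc p n s).card * (2 ^ (k + 1) * w) ≤ w * 4 ^ n := by
      calc (COREX δ acc p n s).card * (2 ^ (k + 1) * w)
          ≤ (∑ s' : Fin w, (COREB δ p L s s').card * (COREX δ acc (p + L) (n - L) s').card) *
            (2 ^ (k + 1) * w) := Nat.mul_le_mul_right _ h1
        _ = ∑ s' : Fin w, (COREB δ p L s s').card * (COREX δ acc (p + L) (n - L) s').card *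
            (2 ^ (k + 1) * w) := by rw [Finset.sum_mul]
        _ ≤ ∑ s' : Fin w, 4 ^ n := Finset.sum_le_sum (fun s' _ => h2 s')
        _ = w * 4 ^ n := by simp
    have h6 : w * ((COREX δ acc p n s).card * 2 ^ (k + 1)) ≤ w * 4 ^ n := by
      calc w * ((COREX δ acc p n s).card * 2 ^ (k + 1))
          = (COREX δ acc p n s).card * (2 ^ (k + 1) * w) := by ring
        _ ≤ w * 4 ^ n := h5
    exact Nat.le_of_mul_le_mul_left h6 hw

end

theorem CORN_un (m : ℕ) (l : List (Fin 2 → Bool)) :
    ![COREun m l 0, COREun m l 1] = COREun m l := by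
  funext j
  fin_cases j <;> rfl

theorem CORN_get (m : ℕ) (i : Fin 2) (l : List (Fin 2 → Bool)) (z : List Bool)
    (hl : l.length = m) (hz : z.length = m) (j : Fin 2) (t : Fin m) :
    COREun m (CORNa i l z) j t =
      if j = i then xor (COREun m l j t) ((z[(t : ℕ)]?).getD false) else COREun m l j t := by
  have h1 : (t : ℕ) < l.length := by have := t.2; omega
  have h2 : (t : ℕ) < z.length := by have := t.2; omega
  unfold COREun CORNa
  simp [h1, h2]

theorem t_CORN : S_CORN := by
  classical
  intro w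
  rcases Nat.eq_zero_or_pos w with rfl | hw
  · refine ⟨1, one_pos, ?_⟩
    rintro m R ⟨δ, s, acc, h⟩
    exact s.elim0
  obtain ⟨L, hL0, hL⟩ := CORN_L w hw
  refine ⟨L, hL0, ?_⟩
  intro m R hR hcor
  obtain ⟨δ, s, acc, hδ⟩ := hR
  have hcard : Nat.card {x : Fin 2 → Str m // R x} = (COREX δ acc 0 m s).card := by
    have h1 : COREX δ acc 0 m s =
        (Finset.univ.filter (fun x : Fin 2 → Str m => R x)).image word := by
      ext l
      simp only [COREX, Finset.mem_filter, CORE_mem, Finset.mem_image, Finset.mem_univ, true_and]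
      constructor
      · rintro ⟨h1, h2⟩
        refine ⟨COREun m l, ?_, CORE_word_un m l h1⟩
        rw [hδ, CORE_word_un m l h1]
        exact h2
      · rintro ⟨x, hx, rfl⟩
        exact ⟨CORE_word_length x, (hδ x).1 hx⟩
    rw [h1, Finset.card_image_of_injective _ CORE_word_inj, Nat.card_eq_fintype_card,
      Fintype.card_subtype]
  rw [hcard]
  apply CORN_main δ acc L hw hL (m / L) 0 m s (Nat.div_mul_le_self m L)
  intro l hl z hz h0 h1 b hb
  have hlm := ((CORN_memX δ acc).1 hl).1
  have hRm : ∀ l', l' ∈ COREX δ acc 0 m s → R (COREun m l') := by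
    intro l' hl'
    rw [CORN_memX] at hl'
    rw [hδ, CORE_word_un m l' hl'.1]
    exact hl'.2
  have key := hcor (COREun m l 0) (COREun m l 1) (fun t => (z[(t : ℕ)]?).getD false)
    (by rw [CORN_un]; exact hRm l hl)
    (by
      convert hRm _ h0 using 1
      funext j t
      rw [CORN_get m 0 l z hlm (hz.trans hlm)]
      fin_cases j <;> simp)
    (by
      convert hRm _ h1 using 1
      funext j t
      rw [CORN_get m 1 l z hlm (hz.trans hlm)]
      fin_cases j <;> simp)
  obtain ⟨k, hk, rfl⟩ := List.getElem_of_mem hb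
  have := congrFun key ⟨k, by omega⟩
  simpa [hk] using this

end Pool.Agent.H607R2.BW
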