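import Pool.Agent.H607R2.BW.Defs

/-!
Even cycles are contained in complete bipartite graphs.
-/

set_option autoImplicit false

namespace Pool.Agent.H607R2.BW

theorem cyc_sub_odd {k : ℕ} (hk : 1 ≤ k) (u v : Fin (2 * k)) (h : (u - v).val = 1) :
    u.val % 2 ≠ v.val % 2 := by
  rw [Fin.sub_def] at h
  simp only at h
  have h1 : (2 * k - v.val + u.val) % (2 * k) = 1 := h
  have h2 : (2 * k - v.val + u.val) % 2 = 1 := by
    rw [← Nat.mod_mod_of_dvd _ (Dvd.intro k rfl : 2 ∣ 2 * k), h1]
  have := v.isLt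
  omega

/-- the map of the vertices -/
def cycMap (k : ℕ) (i : Fin (2 * k)) : Fin k ⊕ Fin k :=
  if i.val % 2 = 0 then Sum.inl ⟨i.val / 2, by have := i.isLt; omega⟩
  else Sum.inr ⟨i.val / 2, by have := i.isLt; omega⟩

theorem cycMap_inj (k : ℕ) : Function.Injective (cycMap k) := by
  intro i j hij
  unfold cycMap at hij
  split_ifs at hij with h1 h2 h2
  · simp only [Sum.inl.injEq, Fin.mk.injEq] at hij
    apply Fin.ext
    omega
  · simp only [Sum.inr.injEq, Fin.mk.injEq] at hij
    apply Fin.ext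
    omega

theorem cycMap_adj (k : ℕ) (i j : Fin (2 * k)) (h : i.val % 2 ≠ j.val % 2) :
    (completeBipartiteGraph (Fin k) (Fin k)).Adj (cycMap k i) (cycMap k j) := by
  unfold cycMap
  split_ifs with h1 h2 h2
  · omega
  · simp [completeBipartiteGraph]
  · simp [completeBipartiteGraph]
  · omega

theorem t_CYC : S_CYC := by
  intro k hk
  refine ⟨⟨⟨cycMap k, ?_⟩, cycMap_inj k⟩⟩
  intro u v huv
  apply cycMap_adj
  rw [SimpleGraph.cycleGraph_adj'] at huv
  rcases huv with h | h
  · exact cyc_sub_odd (by omega) u v h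
  · exact (cyc_sub_odd (by omega) v u h).symm

end Pool.Agent.H607R2.BW
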