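import Pool.Agent.H607R2.BW.Defs

namespace Pool.Agent.H607R2.BW

theorem t_GRID (hC : S_CORE) : S_GRID := by
  intro ι _ _ m w N a R ha hN hW hG
  classical
  -- enumerate the pairs `(j, k)` with `k < a j`
  have hcard : Fintype.card ((j : ι) × Fin (a j)) = ∑ j, a j := by
    rw [Fintype.card_sigma]; simp
  let e : Fin (∑ j, a j) ≃ ((j : ι) × Fin (a j)) :=
    (Fintype.equivFinOfCardEq hcard).symm
  refine hC ι m w (∑ j, a j) (fun k => (e k).1) R ha hW (fun hB => hG ?_)
  obtain ⟨φ, hR, hinj, hφ⟩ := hB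
  have hex : ∀ j, Nonempty (Fin (N j) ↪ (Fin (a j) → Bool)) := fun j =>
    Function.Embedding.nonempty_of_card_le (by
      rw [Fintype.card_fin, Fintype.card_fun, Fintype.card_bool, Fintype.card_fin]
      exact hN j)
  let i : ∀ j, Fin (N j) ↪ (Fin (a j) → Bool) := fun j => (hex j).some
  refine ⟨fun u => φ (fun k => i (e k).1 (u (e k).1) (e k).2), fun u => hR _, ?_, ?_⟩
  · intro u u' h
    have h1 := hinj h
    have h2 : (fun s : (j : ι) × Fin (a j) => i s.1 (u s.1) s.2) =
        (fun s : (j : ι) × Fin (a j) => i s.1 (u' s.1) s.2) :=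
      e.surjective.injective_comp_right h1
    funext j
    apply (i j).injective
    funext k
    exact congrFun h2 ⟨j, k⟩
  · intro j u u' h
    apply hφ
    intro k hk
    show i (e k).1 (u (e k).1) (e k).2 = i (e k).1 (u' (e k).1) (e k).2
    rw [h _ hk]

end Pool.Agent.H607R2.BW
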