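import Pool.Agent.H607R2.BW.Defs

/-!
# Complete bipartite subgraphs of graphs of small width
-/

set_option autoImplicit false

namespace Pool.Agent.H607R2.BW

/-- the number of ordered adjacent pairs -/
theorem KST_card {V : Type} [Fintype V] (G : SimpleGraph V) :
    Nat.card {x : Fin 2 → V // G.Adj (x 0) (x 1)} = 2 * Nat.card G.edgeSet := by
  classical
  have h1 := G.dart_card_eq_twice_card_edges
  have h2 : Nat.card G.edgeSet = G.edgeFinset.card := by
    rw [Nat.card_eq_fintype_card, SimpleGraph.edgeFinset_card]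
  rw [h2, ← h1, ← Nat.card_eq_fintype_card]
  refine Nat.card_congr ?_
  refine ⟨fun x => ⟨(x.1 0, x.1 1), x.2⟩, fun d => ⟨![d.fst, d.snd], ?_⟩, ?_, ?_⟩
  · simpa using d.adj
  · intro x
    apply Subtype.ext
    funext i
    fin_cases i <;> rfl
  · intro d
    rfl

/-- points of the grid -/
def KST_mk {s t : ℕ} (p : Fin t) (q : Fin s) : ∀ j : Fin 2, Fin ((![t, s] : Fin 2 → ℕ) j)
  | ⟨0, _⟩ => p
  | ⟨1, _⟩ => q

theorem KST_mk_ext {s t : ℕ} {p p' : Fin t} {q q' : Fin s} (h : KST_mk p q = KST_mk p' q') :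
    p = p' ∧ q = q' := by
  have h0 := congrFun h 0
  have h1 := congrFun h 1
  exact ⟨h0, h1⟩

/-- a grid gives a complete bipartite subgraph -/
theorem KST_grid {m s t : ℕ} (hs : 1 ≤ s) (ht : 1 ≤ t) (G : SimpleGraph (Str m))
    (h : GridIn (![t, s] : Fin 2 → ℕ) (fun x : Fin 2 → Str m => G.Adj (x 0) (x 1))) :
    (completeBipartiteGraph (Fin s) (Fin t)).IsContained G := by
  obtain ⟨φ, hR, hinj, hline⟩ := h
  set p0 : Fin t := ⟨0, ht⟩ with hp0
  set q0 : Fin s := ⟨0, hs⟩ with hq0
  set X : Fin s → Str m := fun q => φ (KST_mk p0 q) 0 with hX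
  set Y : Fin t → Str m := fun p => φ (KST_mk p q0) 1 with hY
  have e0 : ∀ p q, φ (KST_mk p q) 0 = X q := by
    intro p q
    refine hline 0 _ _ (fun i hi => ?_)
    have : i = 1 := by
      fin_cases i
      · exact absurd rfl hi
      · rfl
    subst this
    rfl
  have e1 : ∀ p q, φ (KST_mk p q) 1 = Y p := by
    intro p q
    refine hline 1 _ _ (fun i hi => ?_)
    have : i = 0 := by
      fin_cases i
      · rfl
      · exact absurd rfl hi
    subst this
    rfl
  have hadj : ∀ p q, G.Adj (X q) (Y p) := by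
    intro p q
    have := hR (KST_mk p q)
    rw [← e0 p q, ← e1 p q]
    exact this
  have key : ∀ p q p' q', X q = X q' → Y p = Y p' → p = p' ∧ q = q' := by
    intro p q p' q' h1 h2
    refine KST_mk_ext (hinj ?_)
    funext i
    fin_cases i
    · show φ (KST_mk p q) 0 = φ (KST_mk p' q') 0
      rw [e0, e0, h1]
    · show φ (KST_mk p q) 1 = φ (KST_mk p' q') 1
      rw [e1, e1, h2]
  refine ⟨⟨⟨Sum.elim X Y, ?_⟩, ?_⟩⟩
  · intro x y hxy
    rw [completeBipartiteGraph_adj] at hxy
    rcases x with x | x <;> rcases y with y | y <;> simp at hxy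
    · exact hadj y x
    · exact (hadj x y).symm
  · intro x y hxy
    have hxy' : Sum.elim X Y x = Sum.elim X Y y := hxy
    rcases x with x | x <;> rcases y with y | y
    · exact congrArg Sum.inl (key p0 x p0 y hxy' rfl).2
    · exfalso
      have h3 : X x = Y y := hxy'
      exact G.ne_of_adj (hadj y x) h3
    · exfalso
      have h3 : Y x = X y := hxy'
      exact G.ne_of_adj (hadj x y) h3.symm
    · exact congrArg Sum.inr (key x q0 y q0 rfl hxy').1

/-- trivial bound for the number of edges -/
theorem KST_triv {m w c : ℕ} (G : SimpleGraph (Str m)) (hw : 1 ≤ w) (hc : m ≤ c) :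
    2 * Nat.card G.edgeSet ≤ 2 ^ m * (w * (1 + 2 * w * m) ^ c) := by
  classical
  have h0 : 2 * Nat.card G.edgeSet ≤ 2 ^ m * 2 ^ m := by
    rw [← KST_card]
    have h1 : Nat.card {x : Fin 2 → Str m // G.Adj (x 0) (x 1)} ≤ Nat.card (Fin 2 → Str m) :=
      Nat.card_le_card_of_injective _ Subtype.val_injective
    have h2 : Nat.card (Fin 2 → Str m) = 2 ^ m * 2 ^ m := by
      rw [Nat.card_eq_fintype_card, Fintype.card_fun, Fintype.card_fun, Fintype.card_fin,
        Fintype.card_fin, Fintype.card_bool]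
      ring
    omega
  refine h0.trans ?_
  refine Nat.mul_le_mul_left _ ?_
  rcases Nat.eq_zero_or_pos m with hm | hm
  · subst hm
    simpa using hw
  · have h1 : 2 ≤ 1 + 2 * w * m := by nlinarith
    calc 2 ^ m ≤ 2 ^ c := Nat.pow_le_pow_right (by norm_num) hc
      _ ≤ (1 + 2 * w * m) ^ c := Nat.pow_le_pow_left h1 c
      _ = 1 * (1 + 2 * w * m) ^ c := (one_mul _).symm
      _ ≤ w * (1 + 2 * w * m) ^ c := Nat.mul_le_mul_right _ hw

/-- few isolated vertices are always contained -/
theorem KST_zero_left {m t : ℕ} (G : SimpleGraph (Str m)) (ht : t ≤ 2 ^ m) :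
    (completeBipartiteGraph (Fin 0) (Fin t)).IsContained G := by
  classical
  have hc : Fintype.card (Fin t) ≤ Fintype.card (Str m) := by
    rw [Fintype.card_fin, Fintype.card_fun, Fintype.card_fin, Fintype.card_bool]
    exact ht
  obtain ⟨f⟩ := Function.Embedding.nonempty_of_card_le hc
  refine ⟨⟨⟨Sum.elim (fun x => x.elim0) f, ?_⟩, ?_⟩⟩
  · intro x y hxy
    rw [completeBipartiteGraph_adj] at hxy
    rcases x with x | x
    · exact x.elim0
    · rcases y with y | y
      · exact y.elim0
      · simp at hxy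
  · intro x y hxy
    rcases x with x | x
    · exact x.elim0
    · rcases y with y | y
      · exact y.elim0
      · exact congrArg Sum.inr (f.injective hxy)

theorem KST_zero_right {m s : ℕ} (G : SimpleGraph (Str m)) (hs : s ≤ 2 ^ m) :
    (completeBipartiteGraph (Fin s) (Fin 0)).IsContained G := by
  classical
  have hc : Fintype.card (Fin s) ≤ Fintype.card (Str m) := by
    rw [Fintype.card_fin, Fintype.card_fun, Fintype.card_fin, Fintype.card_bool]
    exact hs
  obtain ⟨f⟩ := Function.Embedding.nonempty_of_card_le hc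
  refine ⟨⟨⟨Sum.elim f (fun x => x.elim0), ?_⟩, ?_⟩⟩
  · intro x y hxy
    rw [completeBipartiteGraph_adj] at hxy
    rcases x with x | x
    · rcases y with y | y
      · simp at hxy
      · exact y.elim0
    · exact x.elim0
  · intro x y hxy
    rcases x with x | x
    · rcases y with y | y
      · exact congrArg Sum.inl (f.injective hxy)
      · exact y.elim0
    · exact x.elim0

theorem t_KST (hG : S_GRID) : S_KST := by
  intro m w s t a b G hs ht hab hw hfree
  have hw1 : 1 ≤ w := by
    obtain ⟨-, s0, -⟩ := hw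
    exact Nat.one_le_iff_ne_zero.2 (by rintro rfl; exact s0.elim0)
  rcases Nat.eq_zero_or_pos s with hs0 | hs0
  · subst hs0
    have h1 : 2 ^ m < t := by
      by_contra hcon
      exact hfree (KST_zero_left G (not_lt.1 hcon))
    have h2 : m < b := (Nat.pow_lt_pow_iff_right (by norm_num)).1 (lt_of_lt_of_le h1 ht)
    exact KST_triv G hw1 (by omega)
  rcases Nat.eq_zero_or_pos t with ht0 | ht0
  · subst ht0
    have h1 : 2 ^ m < s := by
      by_contra hcon
      exact hfree (KST_zero_right G (not_lt.1 hcon))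
    have h2 : m < a := (Nat.pow_lt_pow_iff_right (by norm_num)).1 (lt_of_lt_of_le h1 hs)
    exact KST_triv G hw1 (by omega)
  have h := hG (Fin 2) m w ![t, s] ![b, a] (fun x : Fin 2 → Str m => G.Adj (x 0) (x 1))
    (by rw [Fin.sum_univ_two]; show 0 < b + a; omega)
    (by
      intro j
      fin_cases j
      · exact ht
      · exact hs)
    hw (fun hg => hfree (KST_grid hs0 ht0 G hg))
  rw [KST_card] at h
  have e1 : ∑ j, (![b, a] : Fin 2 → ℕ) j = a + b := by
    rw [Fin.sum_univ_two]
    show b + a = a + b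
    omega
  rw [e1, Fintype.card_fin] at h
  simpa using h

end Pool.Agent.H607R2.BW
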