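import Pool.Agent.H607R2.BW.Defs2
import Pool.Agent.H607R2.BW.CORE
import Pool.Agent.H607R2.BW.GRID
import Pool.Agent.H607R2.BW.KST
import Pool.Agent.H607R2.BW.ASY2

/-!
# Symmetric designs of small width
-/

namespace Pool.Agent.H607R2.BW

open Finset

/-- counting flags in a symmetric design (helper189, helper177) -/
theorem DES_repl (v k lam : ℕ) (hv : 2 ≤ v) (hlam : 1 ≤ lam) (B : Fin v → Finset (Fin v))
    (hk : ∀ i, (B i).card = k)
    (hp : ∀ x y : Fin v, x ≠ y →
      (Finset.univ.filter (fun i => x ∈ B i ∧ y ∈ B i)).card = lam) :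
    v ≤ k * k + 1 := by
  classical
  have h1 : ∀ x, (Finset.univ.filter (fun i => x ∈ B i)).card * k
      = (Finset.univ.filter (fun i => x ∈ B i)).card + lam * (v - 1) := by
    intro x
    have e1 : ∑ y : Fin v, (Finset.univ.filter (fun i => x ∈ B i ∧ y ∈ B i)).card
        = (Finset.univ.filter (fun i => x ∈ B i)).card * k := by
      simp_rw [Finset.card_filter]
      rw [Finset.sum_comm, Finset.sum_mul]
      refine Finset.sum_congr rfl fun i _ => ?_
      by_cases hx : x ∈ B i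
      · simp [hx, hk i]
      · simp [hx]
    rw [← e1, ← Finset.add_sum_erase _ _ (Finset.mem_univ x)]
    congr 1
    · simp
    · rw [Finset.sum_congr rfl (g := fun _ => lam)]
      · simp [Finset.card_erase_of_mem, mul_comm]
      · intro y hy
        exact hp x y (Finset.ne_of_mem_erase hy).symm
  have hsum : ∑ x : Fin v, (Finset.univ.filter (fun i => x ∈ B i)).card = v * k := by
    simp_rw [Finset.card_filter]
    rw [Finset.sum_comm]
    rw [Finset.sum_congr rfl (g := fun _ => k)]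
    · simp
    · intro i _
      rw [← hk i]; simp
  have h2 : v * k * k = v * k + v * (lam * (v - 1)) := by
    have h3 : ∑ x : Fin v, (Finset.univ.filter (fun i => x ∈ B i)).card * k =
        ∑ x : Fin v, ((Finset.univ.filter (fun i => x ∈ B i)).card + lam * (v - 1)) :=
      Finset.sum_congr rfl (fun x _ => h1 x)
    rw [← Finset.sum_mul, Finset.sum_add_distrib, hsum] at h3
    simpa using h3
  have h4 : v * (k * k) = v * (k + lam * (v - 1)) := by
    rw [← mul_assoc, h2]; ring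
  have h5 : k * k = k + lam * (v - 1) := Nat.eq_of_mul_eq_mul_left (by omega) h4
  have h6 : 1 * (v - 1) ≤ lam * (v - 1) := Nat.mul_le_mul_right _ hlam
  omega

/-- a grid in a relation of two strings gives a product set -/
theorem DES_grid {m s t : ℕ} (hs : 1 ≤ s) (ht : 1 ≤ t) (R : (Fin 2 → Str m) → Prop)
    (h : GridIn (![t, s] : Fin 2 → ℕ) R) :
    ∃ (X : Fin s → Str m) (Y : Fin t → Str m), Function.Injective X ∧ Function.Injective Y ∧
      ∀ p q, R ![X q, Y p] := by
  obtain ⟨φ, hR, hinj, hline⟩ := h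
  set p0 : Fin t := ⟨0, ht⟩ with hp0
  set q0 : Fin s := ⟨0, hs⟩ with hq0
  set X : Fin s → Str m := fun q => φ (KST_mk p0 q) 0 with hX
  set Y : Fin t → Str m := fun p => φ (KST_mk p q0) 1 with hY
  have e0 : ∀ p q, φ (KST_mk p q) 0 = X q := by
    intro p q
    refine hline 0 _ _ (fun i hi => ?_)
    have : i = 1 := by
      fin_cases i
      · exact absurd rfl hi
      · rfl
    subst this
    rfl
  have e1 : ∀ p q, φ (KST_mk p q) 1 = Y p := by
    intro p q
    refine hline 1 _ _ (fun i hi => ?_)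
    have : i = 0 := by
      fin_cases i
      · rfl
      · exact absurd rfl hi
    subst this
    rfl
  have hφ : ∀ p q, φ (KST_mk p q) = ![X q, Y p] := by
    intro p q
    funext i
    fin_cases i
    · exact e0 p q
    · exact e1 p q
  have key : ∀ p q p' q', X q = X q' → Y p = Y p' → p = p' ∧ q = q' := by
    intro p q p' q' h1 h2
    refine KST_mk_ext (hinj ?_)
    rw [hφ, hφ, h1, h2]
  refine ⟨X, Y, ?_, ?_, ?_⟩
  · intro q q' h
    exact (key p0 q p0 q' h rfl).2
  · intro p p' h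
    exact (key p q0 p' q0 rfl h).1
  · intro p q
    rw [← hφ]
    exact hR _

/-- the incidence relation of a design with labelled points and blocks -/
def DesignRel {v m : ℕ} (B : Fin v → Finset (Fin v)) (p b : Fin v → Str m) :
    (Fin 2 → Str m) → Prop :=
  fun x => ∃ i j, i ∈ B j ∧ x 0 = p i ∧ x 1 = b j

theorem DES_main (lam a m w v k : ℕ) (B : Fin v → Finset (Fin v)) (p b : Fin v → Str m)
    (hk : ∀ i, (B i).card = k)
    (hlam : ∀ x y : Fin v, x ≠ y →
      (Finset.univ.filter (fun i => x ∈ B i ∧ y ∈ B i)).card = lam)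
    (hp : Function.Injective p) (hb : Function.Injective b)
    (hw : HasWidth w (DesignRel B p b)) (ha : lam + 1 ≤ 2 ^ a) :
    v * k ≤ 2 ^ m * (w * (1 + 2 * w * m) ^ a) := by
  classical
  have hno : ¬ GridIn (![lam + 1, 2] : Fin 2 → ℕ) (DesignRel B p b) := by
    intro hg
    obtain ⟨X, Y, hX, hY, hXY⟩ := DES_grid (by norm_num) (by omega) _ hg
    have h1 : ∀ (q : Fin 2) (r : Fin (lam + 1)), ∃ i j, i ∈ B j ∧ X q = p i ∧ Y r = b j := by
      intro q r
      simpa [DesignRel] using hXY r q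
    choose I J hIJ hXp hYb using h1
    have hI : ∀ q r r', I q r = I q r' := by
      intro q r r'
      exact hp ((hXp q r).symm.trans (hXp q r'))
    have hJ : ∀ q q' r, J q r = J q' r := by
      intro q q' r
      exact hb ((hYb q r).symm.trans (hYb q' r))
    have hne : I 0 0 ≠ I 1 0 := by
      intro h
      have h2 : X 0 = X 1 := by rw [hXp 0 0, hXp 1 0, h]
      exact absurd (hX h2) (by decide)
    have h3 := hlam (I 0 0) (I 1 0) hne
    have h4 : (Finset.univ.image (fun r : Fin (lam + 1) => J 0 r)) ⊆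
        Finset.univ.filter (fun i => I 0 0 ∈ B i ∧ I 1 0 ∈ B i) := by
      intro j hj
      obtain ⟨r, _, rfl⟩ := Finset.mem_image.1 hj
      rw [Finset.mem_filter]
      refine ⟨Finset.mem_univ _, ?_, ?_⟩
      · rw [hI 0 0 r]; exact hIJ 0 r
      · rw [hI 1 0 r, hJ 0 1 r]; exact hIJ 1 r
    have h5 := Finset.card_le_card h4
    rw [h3, Finset.card_image_of_injective _ (by
      intro r r' h
      apply hY
      rw [hYb 0 r, hYb 0 r']
      exact congrArg b h)] at h5
    simp at h5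
  have h := (t_GRID t_CORE) (Fin 2) m w ![lam + 1, 2] ![a, 1] (DesignRel B p b)
    (by rw [Fin.sum_univ_two]; show 0 < a + 1; omega)
    (by
      intro j
      fin_cases j
      · exact ha
      · show 2 ≤ 2 ^ 1
        norm_num)
    hw hno
  have e1 : ∑ j, (![a, 1] : Fin 2 → ℕ) j - 1 = a := by
    rw [Fin.sum_univ_two]
    show a + 1 - 1 = a
    omega
  rw [e1, Fintype.card_fin] at h
  have hcard : v * k ≤ Nat.card {x : Fin 2 → Str m // DesignRel B p b x} := by
    have h1 : Nat.card (Σ j : Fin v, {i // i ∈ B j}) = v * k := by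
      rw [Nat.card_eq_fintype_card, Fintype.card_sigma]
      rw [Finset.sum_congr rfl (g := fun _ => k) (fun j _ => by rw [Fintype.card_coe, hk])]
      simp
    rw [← h1]
    refine Nat.card_le_card_of_injective
      (fun s => ⟨![p s.2.1, b s.1], s.2.1, s.1, s.2.2, rfl, rfl⟩) ?_
    rintro ⟨j, i, hi⟩ ⟨j', i', hi'⟩ hs
    have h2 := congrArg Subtype.val hs
    have h3 : p i = p i' := congrFun h2 0
    have h4 : b j = b j' := congrFun h2 1
    have h5 := hb h4
    have h6 := hp h3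
    subst h5 h6
    rfl
  refine hcard.trans (h.trans (le_of_eq ?_))
  norm_num

theorem DES_width (lam a : ℕ) (c : ℝ) (hl : 1 ≤ lam) (ha : lam + 1 ≤ 2 ^ a) (hc : 0 ≤ c)
    (hac : ((a : ℝ) + 1) * c < 1 / 2) :
    ∃ m₀ : ℕ, ∀ (m w v k : ℕ) (B : Fin v → Finset (Fin v)) (p b : Fin v → Str m),
      m₀ ≤ m → 2 ^ m ≤ 2 * v → (∀ i, (B i).card = k) →
      (∀ x y : Fin v, x ≠ y →
        (Finset.univ.filter (fun i => x ∈ B i ∧ y ∈ B i)).card = lam) →
      Function.Injective p → Function.Injective b → HasWidth w (DesignRel B p b) →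
      ((2 : ℝ) ^ m) ^ c < w := by
  obtain ⟨m₀, hm₀⟩ := t_ASY2 a 2 c (1 / 2) (1 / 4) (by norm_num) hc hac
  refine ⟨max m₀ 3, ?_⟩
  intro m w v k B p b hm hv hk hlam hp hb hw
  by_contra hcon
  push Not at hcon
  have hm1 : m₀ ≤ m := le_trans (le_max_left _ _) hm
  have hm3 : 3 ≤ m := le_trans (le_max_right _ _) hm
  have h1 := hm₀ m w hm1 hcon
  have h2 := DES_main lam a m w v k B p b hk hlam hp hb hw ha
  have h8 : (8 : ℕ) ≤ 2 ^ m := by
    calc 8 = 2 ^ 3 := by norm_num
      _ ≤ 2 ^ m := Nat.pow_le_pow_right (by norm_num) hm3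
  have h3 := DES_repl v k lam (by omega) hl B hk hlam
  have h2' : ((v * k : ℕ) : ℝ) ≤ 1 / 4 * ((2 : ℝ) ^ m) ^ ((1 : ℝ) + 1 / 2) :=
    le_trans (Nat.cast_le.2 h2) h1
  set N : ℝ := (2 : ℝ) ^ m with hN
  have hNpos : 0 < N := by positivity
  have hN8 : (8 : ℝ) ≤ N := by
    rw [hN]; exact_mod_cast h8
  have hsplit : N ^ ((1 : ℝ) + 1 / 2) = N * Real.sqrt N := by
    rw [Real.rpow_add hNpos, Real.rpow_one, Real.sqrt_eq_rpow]
  rw [hsplit] at h2'
  have hvR : N ≤ 2 * (v : ℝ) := by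
    rw [hN]; exact_mod_cast hv
  have h3R : (v : ℝ) ≤ k * k + 1 := by exact_mod_cast h3
  push_cast at h2'
  have hk0 : (0 : ℝ) ≤ k := Nat.cast_nonneg k
  have hs0 : 0 ≤ Real.sqrt N := Real.sqrt_nonneg N
  have hs2 : Real.sqrt N * Real.sqrt N = N := Real.mul_self_sqrt hNpos.le
  have h4 : N * k ≤ N * (Real.sqrt N / 2) := by
    calc N * k ≤ 2 * (v : ℝ) * k := by gcongr
      _ ≤ N * (Real.sqrt N / 2) := by linarith
  have h5 : (k : ℝ) ≤ Real.sqrt N / 2 := le_of_mul_le_mul_left h4 hNpos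
  have h6 : (k : ℝ) * k ≤ (Real.sqrt N / 2) * (Real.sqrt N / 2) :=
    mul_le_mul h5 h5 hk0 (by positivity)
  have h7 : (Real.sqrt N / 2) * (Real.sqrt N / 2) = N / 4 := by
    calc (Real.sqrt N / 2) * (Real.sqrt N / 2) = (Real.sqrt N * Real.sqrt N) / 4 := by ring
      _ = N / 4 := by rw [hs2]
  linarith

theorem DES_finite (lam w : ℕ) (hl : 1 ≤ lam) :
    ∃ M : ℕ, ∀ (m v k : ℕ) (B : Fin v → Finset (Fin v)) (p b : Fin v → Str m),
      2 ^ m ≤ 2 * v → (∀ i, (B i).card = k) →
      (∀ x y : Fin v, x ≠ y →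
        (Finset.univ.filter (fun i => x ∈ B i ∧ y ∈ B i)).card = lam) →
      Function.Injective p → Function.Injective b → HasWidth w (DesignRel B p b) →
      v ≤ M := by
  set a := lam + 1 with ha
  have hac : ((a : ℝ) + 1) * (1 / (4 * ((a : ℝ) + 1))) < 1 / 2 := by
    have : (0 : ℝ) < (a : ℝ) + 1 := by positivity
    have h : ((a : ℝ) + 1) * (1 / (4 * ((a : ℝ) + 1))) = 1 / 4 := by field_simp
    rw [h]; norm_num
  obtain ⟨m₀, hm₀⟩ := DES_width lam a (1 / (4 * ((a : ℝ) + 1))) hl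
    (Nat.lt_two_pow_self).le (by positivity) hac
  set c : ℝ := 1 / (4 * ((a : ℝ) + 1)) with hc
  have hcpos : 0 < c := by positivity
  have h2c : (1 : ℝ) < (2 : ℝ) ^ c := Real.one_lt_rpow (by norm_num) hcpos
  obtain ⟨m₁, hm₁⟩ := pow_unbounded_of_one_lt (w : ℝ) h2c
  refine ⟨2 ^ (max m₀ m₁), ?_⟩
  intro m v k B p b hv hk hlam hp hb hw
  have hvm : v ≤ 2 ^ m := by
    have := Fintype.card_le_of_injective p hp
    simpa [Str] using this
  by_contra hcon
  push Not at hcon
  have hlt : 2 ^ (max m₀ m₁) < 2 ^ m := lt_of_lt_of_le hcon hvm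
  have hmm : max m₀ m₁ < m := (Nat.pow_lt_pow_iff_right (by norm_num)).1 hlt
  have h1 := hm₀ m w v k B p b (le_trans (le_max_left _ _) hmm.le) hv hk hlam hp hb hw
  have h2 : ((2 : ℝ) ^ m) ^ c = ((2 : ℝ) ^ c) ^ m := by
    rw [← Real.rpow_natCast 2 m, ← Real.rpow_natCast ((2 : ℝ) ^ c) m, ← Real.rpow_mul (by norm_num),
      ← Real.rpow_mul (by norm_num), mul_comm]
  rw [h2] at h1
  have h3 : ((2 : ℝ) ^ c) ^ m₁ ≤ ((2 : ℝ) ^ c) ^ m :=
    pow_le_pow_right₀ h2c.le (le_trans (le_max_right _ _) hmm.le)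
  linarith

end Pool.Agent.H607R2.BW
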