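import Mathlib

/-!
# Graphs and hypergraphs decided by branching programs of small width
-/

namespace Pool.Agent.H607R2.BW

/-- strings of `m` bits -/
abbrev Str (m : ℕ) : Type := Fin m → Bool

/-- The state reached from state `s` at position `p` after reading the word `x`;
`δ q s a` is the new state if the letter at position `q` is `a` and the old state is `s`. -/
def run {σ A : Type} (δ : ℕ → σ → A → σ) : ℕ → σ → List A → σ
  | _, s, [] => s
  | p, s, a :: x => run δ (p + 1) (δ p s a) x

/-- The word whose letter at position `t` is the tuple of the `t`-th bits of the strings `x j`. -/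
def word {ι : Type} {m : ℕ} (x : ι → Str m) : List (ι → Bool) :=
  List.ofFn (fun (t : Fin m) (j : ι) => x j t)

/-- The relation `R` between strings `x j` of `m` bits (`j : ι`) has width at most `w`: it is
decided by a machine with `w` states (with position dependent transitions) which reads the strings
in parallel, at step `t` the `t`-th bits of all of them. -/
def HasWidth {ι : Type} {m : ℕ} (w : ℕ) (R : (ι → Str m) → Prop) : Prop :=
  ∃ (δ : ℕ → Fin w → (ι → Bool) → Fin w) (s : Fin w) (acc : Set (Fin w)),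
    ∀ x : ι → Str m, R x ↔ run δ 0 s (word x) ∈ acc

/-- A box of type `τ` in the relation `R`. -/
def BoxIn {ι : Type} {m A : ℕ} (τ : Fin A → ι) (R : (ι → Str m) → Prop) : Prop :=
  ∃ φ : (Fin A → Bool) → (ι → Str m), (∀ b, R (φ b)) ∧ Function.Injective φ ∧
    ∀ (j : ι) (b b' : Fin A → Bool), (∀ k, τ k ≠ j → b k = b' k) → φ b j = φ b' j

/-- A grid of side lengths `N j` in the relation `R`: the points of the grid give different
elements of `R`, and the `j`-th string of the element is constant on the lines in direction `j`. -/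
def GridIn {ι : Type} {m : ℕ} (N : ι → ℕ) (R : (ι → Str m) → Prop) : Prop :=
  ∃ φ : (∀ j : ι, Fin (N j)) → (ι → Str m), (∀ u, R (φ u)) ∧ Function.Injective φ ∧
    ∀ (j : ι) (u u' : ∀ j : ι, Fin (N j)), (∀ i, i ≠ j → u i = u' i) → φ u j = φ u' j

/-- the counting theorem for boxes -/
def S_CORE : Prop :=
  ∀ (ι : Type) [Fintype ι] [Nonempty ι] (m w A : ℕ) (τ : Fin A → ι) (R : (ι → Str m) → Prop),
    0 < A → HasWidth w R → ¬ BoxIn τ R →
    Nat.card {x : ι → Str m // R x} ≤
      2 ^ m * (w * (1 + 2 ^ (Fintype.card ι - 1) * w * m) ^ (A - 1))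

/-- the counting theorem for grids -/
def S_GRID : Prop :=
  ∀ (ι : Type) [Fintype ι] [Nonempty ι] (m w : ℕ) (N a : ι → ℕ) (R : (ι → Str m) → Prop),
    0 < ∑ j, a j → (∀ j, N j ≤ 2 ^ a j) → HasWidth w R → ¬ GridIn N R →
    Nat.card {x : ι → Str m // R x} ≤
      2 ^ m * (w * (1 + 2 ^ (Fintype.card ι - 1) * w * m) ^ (∑ j, a j - 1))

/-- the graph `G` on the strings of `m` bits has width at most `w` -/
def GraphWidth {m : ℕ} (w : ℕ) (G : SimpleGraph (Str m)) : Prop :=
  HasWidth w (fun x : Fin 2 → Str m => G.Adj (x 0) (x 1))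

/-- complete bipartite subgraphs -/
def S_KST : Prop :=
  ∀ (m w s t a b : ℕ) (G : SimpleGraph (Str m)), s ≤ 2 ^ a → t ≤ 2 ^ b → 0 < a + b →
    GraphWidth w G → (completeBipartiteGraph (Fin s) (Fin t)).Free G →
    2 * Nat.card G.edgeSet ≤ 2 ^ m * (w * (1 + 2 * w * m) ^ (a + b - 1))

/-- even cycles are contained in complete bipartite graphs -/
def S_CYC : Prop :=
  ∀ k : ℕ, 2 ≤ k →
    (SimpleGraph.cycleGraph (2 * k)).IsContained (completeBipartiteGraph (Fin k) (Fin k))

/-- graphs of girth larger than four contain no complete bipartite graph `K_{2,2}` -/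
def S_GIR : Prop :=
  ∀ (V : Type) (G : SimpleGraph V), 4 < G.egirth →
    (completeBipartiteGraph (Fin 2) (Fin 2)).Free G

/-- sub-polynomial width gives almost linear size: for `A` fixed the factor is at most
`2 ^ (ε m)` if the width is at most `2 ^ (c m)` -/
def S_ASY : Prop :=
  ∀ (A C : ℕ) (ε : ℝ), 0 < ε → ∃ c : ℝ, 0 < c ∧ ∃ m₀ : ℕ, ∀ m w : ℕ, m₀ ≤ m →
    (w : ℝ) ≤ 2 ^ (c * m) →
    ((2 ^ m * (w * (1 + C * w * m) ^ A) : ℕ) : ℝ) ≤ 2 ^ ((1 + ε) * m)

/-- the `r`-uniform hypergraph `E` on the strings of `m` bits has width at most `w` -/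
def HyperWidth {m : ℕ} (r w : ℕ) (E : Finset (Finset (Str m))) : Prop :=
  open Classical in
  HasWidth w (fun x : Fin r → Str m => Function.Injective x ∧ Finset.univ.image x ∈ E)

/-- counting ordered edges -/
def S_ORD : Prop :=
  open Classical in
  ∀ (m r : ℕ) (E : Finset (Finset (Str m))), (∀ s ∈ E, s.card = r) →
    Nat.card {x : Fin r → Str m // Function.Injective x ∧ Finset.univ.image x ∈ E} =
      r.factorial * E.card

/-- a grid in the relation of ordered edges contains many edges on few vertices: `r! e` points of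
the grid with `p ^ r ≥ r! e` give `e` different edges on at most `r p ^ (r - 1)` vertices -/
def S_EDG : Prop :=
  open Classical in
  ∀ (m r e p : ℕ) (E : Finset (Finset (Str m))), 1 ≤ r → r.factorial * e ≤ p ^ r →
    GridIn (fun _ : Fin r => p)
      (fun x : Fin r → Str m => Function.Injective x ∧ Finset.univ.image x ∈ E) →
    ∃ T ⊆ E, T.card = e ∧ (T.biUnion id).card ≤ r * p ^ (r - 1)

/-- Brown-Erdos-Sos for triple systems of small width -/
def S_BES3 : Prop :=
  open Classical in
  ∀ (m w k a : ℕ) (E : Finset (Finset (Str m))), (∀ s ∈ E, s.card = 3) → HyperWidth 3 w E →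
    1334 ≤ k → 6 * k ≤ 8 ^ a →
    2 ^ m * (w * (1 + 4 * w * m) ^ (3 * a - 1)) < 6 * E.card →
    ∃ T ⊆ E, T.card = k ∧ (T.biUnion id).card ≤ k + 3

/-- Brown-Erdos-Sos for `r`-uniform hypergraphs of small width -/
def S_BESR : Prop :=
  open Classical in
  ∀ (r m w e : ℕ) (E : Finset (Finset (Str m))), 3 ≤ r → (∀ s ∈ E, s.card = r) →
    HyperWidth r w E → (r * 2 ^ r * r.factorial) ^ r ≤ e →
    2 ^ m * (w * (1 + 2 ^ (r - 1) * w * m) ^ (Nat.log 2 (2 ^ r * r.factorial * e))) <
      r.factorial * E.card →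
    ∃ T ⊆ E, T.card = e ∧ (T.biUnion id).card ≤ (r - 2) * e + 3

end Pool.Agent.H607R2.BW
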