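import Pool.Agent.H607R2.BW.Defs

/-!
# Graphs and hypergraphs of small width: the final statements
-/

namespace Pool.Agent.H607R2.BW

/-- asymptotic form of the bounds -/
def S_ASY2 : Prop :=
  ∀ (A C : ℕ) (c ε η : ℝ), 0 < η → 0 ≤ c → ((A : ℝ) + 1) * c < ε →
    ∃ m₀ : ℕ, ∀ m w : ℕ, m₀ ≤ m → (w : ℝ) ≤ ((2 : ℝ) ^ m) ^ c →
      ((2 ^ m * (w * (1 + C * w * m) ^ A) : ℕ) : ℝ) ≤ η * ((2 : ℝ) ^ m) ^ (1 + ε)

/-- final statement for `K_{s,t}` -/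
def S_RKST : Prop :=
  (∀ (m w s t a b : ℕ) (G : SimpleGraph (Str m)), s ≤ 2 ^ a → t ≤ 2 ^ b → 0 < a + b →
    GraphWidth w G → (completeBipartiteGraph (Fin s) (Fin t)).Free G →
    2 * Nat.card G.edgeSet ≤ 2 ^ m * (w * (1 + 2 * w * m) ^ (a + b - 1))) ∧
  (∀ (s t a b : ℕ) (c ε : ℝ), s ≤ 2 ^ a → t ≤ 2 ^ b → 0 < a + b → 0 ≤ c → ((a : ℝ) + b) * c < ε →
    ∃ m₀ : ℕ, ∀ (m w : ℕ) (G : SimpleGraph (Str m)), m₀ ≤ m → (w : ℝ) ≤ ((2 : ℝ) ^ m) ^ c →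
      GraphWidth w G → (completeBipartiteGraph (Fin s) (Fin t)).Free G →
      (Nat.card G.edgeSet : ℝ) ≤ ((2 : ℝ) ^ m) ^ (1 + ε))

/-- final statement for `K_{r,r}` -/
def S_RKRR : Prop :=
  (∀ (m w r a : ℕ) (G : SimpleGraph (Str m)), r ≤ 2 ^ a → 0 < a →
    GraphWidth w G → (completeBipartiteGraph (Fin r) (Fin r)).Free G →
    2 * Nat.card G.edgeSet ≤ 2 ^ m * (w * (1 + 2 * w * m) ^ (2 * a - 1))) ∧
  (∀ (r a : ℕ) (c c' : ℝ), 2 ≤ r → r ≤ 2 ^ a → 0 < c' → 0 ≤ c → 2 * a * c < 1 - 1 / r →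
    ∃ m₀ : ℕ, ∀ (m w : ℕ) (G : SimpleGraph (Str m)), m₀ ≤ m → GraphWidth w G →
      (completeBipartiteGraph (Fin r) (Fin r)).Free G →
      c' * ((2 : ℝ) ^ m) ^ (2 - 1 / (r : ℝ)) ≤ Nat.card G.edgeSet →
      ((2 : ℝ) ^ m) ^ c < w)

/-- final statement for even cycles -/
def S_RCYC : Prop :=
  (∀ (m w k a : ℕ) (G : SimpleGraph (Str m)), 2 ≤ k → k ≤ 2 ^ a →
    GraphWidth w G → (SimpleGraph.cycleGraph (2 * k)).Free G →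
    2 * Nat.card G.edgeSet ≤ 2 ^ m * (w * (1 + 2 * w * m) ^ (2 * a - 1))) ∧
  (∀ (k a : ℕ) (c c' : ℝ), 2 ≤ k → k ≤ 2 ^ a → 0 < c' → 0 ≤ c → 2 * a * c < 1 / k →
    ∃ m₀ : ℕ, ∀ (m w : ℕ) (G : SimpleGraph (Str m)), m₀ ≤ m → GraphWidth w G →
      (SimpleGraph.cycleGraph (2 * k)).Free G →
      c' * ((2 : ℝ) ^ m) ^ (1 + 1 / (k : ℝ)) ≤ Nat.card G.edgeSet →
      ((2 : ℝ) ^ m) ^ c < w)

/-- final statement for girth -/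
def S_RGIR : Prop :=
  (∀ (m w : ℕ) (G : SimpleGraph (Str m)), GraphWidth w G → 4 < G.egirth →
    2 * Nat.card G.edgeSet ≤ 2 ^ m * (w * (1 + 2 * w * m))) ∧
  (∀ (k : ℕ) (c c' : ℝ), 2 ≤ k → 0 < c' → 0 ≤ c → c < 1 / (2 * k) →
    ∃ m₀ : ℕ, ∀ (m w : ℕ) (G : SimpleGraph (Str m)), m₀ ≤ m → GraphWidth w G →
      ((2 * k : ℕ) : ℕ∞) < G.egirth →
      c' * ((2 : ℝ) ^ m) ^ (1 + 1 / (k : ℝ)) ≤ Nat.card G.edgeSet →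
      ((2 : ℝ) ^ m) ^ c < w)

/-- final statement for triple systems -/
def S_RBES3 : Prop :=
  open Classical in
  (∀ (m w k a : ℕ) (E : Finset (Finset (Str m))), (∀ s ∈ E, s.card = 3) → HyperWidth 3 w E →
    1334 ≤ k → 6 * k ≤ 8 ^ a → (∀ T ⊆ E, T.card = k → k + 3 < (T.biUnion id).card) →
    6 * E.card ≤ 2 ^ m * (w * (1 + 4 * w * m) ^ (3 * a - 1))) ∧
  (∀ (k a : ℕ) (c ε : ℝ), 1334 ≤ k → 6 * k ≤ 8 ^ a → 0 ≤ c → 3 * a * c < ε →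
    ∃ m₀ : ℕ, ∀ (m w : ℕ) (E : Finset (Finset (Str m))), m₀ ≤ m → (w : ℝ) ≤ ((2 : ℝ) ^ m) ^ c →
      (∀ s ∈ E, s.card = 3) → HyperWidth 3 w E →
      (∀ T ⊆ E, T.card = k → k + 3 < (T.biUnion id).card) →
      (E.card : ℝ) ≤ ((2 : ℝ) ^ m) ^ (1 + ε))

/-- final statement for uniform hypergraphs -/
def S_RBESR : Prop :=
  open Classical in
  (∀ (r m w e : ℕ) (E : Finset (Finset (Str m))), 3 ≤ r → (∀ s ∈ E, s.card = r) →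
    HyperWidth r w E → (r * 2 ^ r * r.factorial) ^ r ≤ e →
    (∀ T ⊆ E, T.card = e → (r - 2) * e + 3 < (T.biUnion id).card) →
    r.factorial * E.card ≤
      2 ^ m * (w * (1 + 2 ^ (r - 1) * w * m) ^ (Nat.log 2 (2 ^ r * r.factorial * e)))) ∧
  (∀ (r e : ℕ) (ε : ℝ), 3 ≤ r → (r * 2 ^ r * r.factorial) ^ r ≤ e → 0 < ε →
    ∃ c : ℝ, 0 < c ∧ ∃ m₀ : ℕ, ∀ (m w : ℕ) (E : Finset (Finset (Str m))), m₀ ≤ m →
      (w : ℝ) ≤ ((2 : ℝ) ^ m) ^ c → (∀ s ∈ E, s.card = r) → HyperWidth r w E →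
      (∀ T ⊆ E, T.card = e → (r - 2) * e + 3 < (T.biUnion id).card) →
      (E.card : ℝ) ≤ ((2 : ℝ) ^ m) ^ (1 + ε))

/-- final statement for corner-free sets: a power saving for every fixed width -/
def S_CORN : Prop :=
  ∀ w : ℕ, ∃ L : ℕ, 0 < L ∧ ∀ (m : ℕ) (R : (Fin 2 → Str m) → Prop), HasWidth w R →
    (∀ x y z : Str m, R ![x, y] → R ![fun t => xor (x t) (z t), y] →
      R ![x, fun t => xor (y t) (z t)] → z = fun _ => false) →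
    Nat.card {x : Fin 2 → Str m // R x} * 2 ^ (m / L) ≤ 4 ^ m

end Pool.Agent.H607R2.BW
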