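import Pool.Agent.H607R2.BW.Defs

namespace Pool.Agent.H607R2.BW

open Classical in
theorem EDG_fiber {α : Type} [Fintype α] [DecidableEq α] (r : ℕ) (s : Finset α)
    (hs : s.card = r) :
    (Finset.univ.filter (fun x : Fin r → α =>
      Function.Injective x ∧ Finset.univ.image x = s)).card = r.factorial := by
  have h1 : Fintype.card (Fin r ↪ s) = r.factorial := by
    rw [Fintype.card_embedding_eq, Fintype.card_fin, Fintype.card_coe, hs, Nat.descFactorial_self]
  rw [← h1, ← Finset.card_univ (α := Fin r ↪ s)]
  symm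
  refine Finset.card_bij (fun (e : Fin r ↪ s) _ => fun i => (e i : α)) ?_ ?_ ?_
  · intro e _
    have hinj : Function.Injective (fun i => (e i : α)) := fun i j hij =>
      e.injective (Subtype.ext hij)
    refine Finset.mem_filter.2 ⟨Finset.mem_univ _, hinj, ?_⟩
    apply Finset.eq_of_subset_of_card_le
    · intro a ha
      obtain ⟨i, _, rfl⟩ := Finset.mem_image.1 ha
      exact (e i).2
    · rw [Finset.card_image_of_injective _ hinj, hs]
      simp
  · intro e _ e' _ h
    ext i
    exact congrFun h i
  · intro x hx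
    obtain ⟨_, hinj, him⟩ := Finset.mem_filter.1 hx
    have hmem : ∀ i, x i ∈ s := fun i => by
      rw [← him]; exact Finset.mem_image_of_mem _ (Finset.mem_univ i)
    refine ⟨⟨fun i => ⟨x i, hmem i⟩, fun i j hij => hinj (congrArg Subtype.val hij)⟩,
      Finset.mem_univ _, rfl⟩

open Classical in
/-- the `j`-th strings of a grid take at most `p ^ (r - 1)` values -/
theorem EDG_line {m r p : ℕ} (φ : (Fin r → Fin p) → (Fin r → Str m))
    (hφ : ∀ (j : Fin r) (u u' : Fin r → Fin p), (∀ i, i ≠ j → u i = u' i) → φ u j = φ u' j)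
    (j : Fin r) : (Finset.univ.image (fun u => φ u j)).card ≤ p ^ (r - 1) := by
  rcases Nat.eq_zero_or_pos p with hp | hp
  · subst hp
    have : IsEmpty (Fin r → Fin 0) := ⟨fun u => (u j).elim0⟩
    rw [Finset.univ_eq_empty, Finset.image_empty, Finset.card_empty]
    exact Nat.zero_le _
  · have hcard : Fintype.card ({i : Fin r // i ≠ j} → Fin p) = p ^ (r - 1) := by
      rw [Fintype.card_fun, Fintype.card_fin, Fintype.card_subtype_compl, Fintype.card_fin,
        Fintype.card_subtype_eq]
    have hsub : Finset.univ.image (fun u => φ u j) ⊆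
        Finset.univ.image (fun v : {i : Fin r // i ≠ j} → Fin p =>
          φ (fun i => if h : i ≠ j then v ⟨i, h⟩ else ⟨0, hp⟩) j) := by
      intro a ha
      obtain ⟨u, _, rfl⟩ := Finset.mem_image.1 ha
      refine Finset.mem_image.2 ⟨fun i => u i, Finset.mem_univ _, ?_⟩
      apply hφ
      intro i hi
      simp [hi]
    calc (Finset.univ.image (fun u => φ u j)).card
        ≤ (Finset.univ.image (fun v : {i : Fin r // i ≠ j} → Fin p =>
          φ (fun i => if h : i ≠ j then v ⟨i, h⟩ else ⟨0, hp⟩) j)).card := Finset.card_le_card hsub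
      _ ≤ (Finset.univ : Finset ({i : Fin r // i ≠ j} → Fin p)).card := Finset.card_image_le
      _ = p ^ (r - 1) := by rw [Finset.card_univ, hcard]

open Classical in
theorem t_EDG : S_EDG := by
  intro m r e p E hr hep hG
  obtain ⟨φ, hR, hinj, hφ⟩ := hG
  -- the edges given by the points of the grid
  have hfib : ∀ s ∈ Finset.univ.image (fun u => Finset.univ.image (φ u)),
      (Finset.univ.filter (fun u => Finset.univ.image (φ u) = s)).card ≤ r.factorial := by
    intro s hs
    obtain ⟨u₀, _, rfl⟩ := Finset.mem_image.1 hs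
    have hc : (Finset.univ.image (φ u₀)).card = r := by
      rw [Finset.card_image_of_injective _ (hR u₀).1]
      simp
    rw [← EDG_fiber r _ hc]
    refine Finset.card_le_card_of_injOn φ ?_ (fun a _ b _ h => hinj h)
    intro u hu
    have hu' := (Finset.mem_filter.1 hu).2
    exact Finset.mem_coe.2 (Finset.mem_filter.2 ⟨Finset.mem_univ _, (hR u).1, hu'⟩)
  have hcard : p ^ r ≤ r.factorial *
      (Finset.univ.image (fun u => Finset.univ.image (φ u))).card := by
    have h1 := Finset.card_le_mul_card_image (s := (Finset.univ : Finset (Fin r → Fin p)))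
      (f := fun u => Finset.univ.image (φ u)) r.factorial hfib
    rw [Finset.card_univ, Fintype.card_fun, Fintype.card_fin, Fintype.card_fin] at h1
    exact h1
  have hle : e ≤ (Finset.univ.image (fun u => Finset.univ.image (φ u))).card :=
    Nat.le_of_mul_le_mul_left (hep.trans hcard) (Nat.factorial_pos r)
  obtain ⟨T, hT, hTc⟩ := Finset.exists_subset_card_eq hle
  refine ⟨T, ?_, hTc, ?_⟩
  · intro s hs
    obtain ⟨u, _, rfl⟩ := Finset.mem_image.1 (hT hs)
    exact (hR u).2
  · have hsub : T.biUnion id ⊆
        (Finset.univ : Finset (Fin r)).biUnion (fun j => Finset.univ.image (fun u => φ u j)) := by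
      intro a ha
      obtain ⟨s, hs, has⟩ := Finset.mem_biUnion.1 ha
      obtain ⟨u, _, rfl⟩ := Finset.mem_image.1 (hT hs)
      obtain ⟨j, _, rfl⟩ := Finset.mem_image.1 has
      exact Finset.mem_biUnion.2 ⟨j, Finset.mem_univ _,
        Finset.mem_image.2 ⟨u, Finset.mem_univ _, rfl⟩⟩
    calc (T.biUnion id).card ≤ _ := Finset.card_le_card hsub
      _ ≤ ∑ j : Fin r, (Finset.univ.image (fun u => φ u j)).card := Finset.card_biUnion_le
      _ ≤ ∑ _j : Fin r, p ^ (r - 1) := Finset.sum_le_sum (fun j _ => EDG_line φ hφ j)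
      _ = r * p ^ (r - 1) := by simp

end Pool.Agent.H607R2.BW
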