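import Pool.Agent.H607R2.BW.Defs

/-!
Graphs of girth larger than four contain no complete bipartite graph with sides two and two.
-/

set_option autoImplicit false

namespace Pool.Agent.H607R2.BW

theorem t_GIR : S_GIR := by
  intro V G hg hcon
  obtain ⟨f⟩ := hcon
  have hinj : Function.Injective f := f.injective
  have hadj : ∀ i j : Fin 2, G.Adj (f (Sum.inl i)) (f (Sum.inr j)) := by
    intro i j
    exact f.toHom.map_adj (by simp [completeBipartiteGraph])
  set x0 := f (Sum.inl 0) with hx0
  set x1 := f (Sum.inl 1) with hx1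
  set y0 := f (Sum.inr 0) with hy0
  set y1 := f (Sum.inr 1) with hy1
  have n1 : x0 ≠ x1 := fun h => by simpa using hinj h
  have n2 : y0 ≠ y1 := fun h => by simpa using hinj h
  have n3 : x0 ≠ y0 := fun h => by simpa using hinj h
  have n4 : x0 ≠ y1 := fun h => by simpa using hinj h
  have n5 : x1 ≠ y0 := fun h => by simpa using hinj h
  have n6 : x1 ≠ y1 := fun h => by simpa using hinj h
  have a1 : G.Adj x0 y0 := hadj 0 0
  have a2 : G.Adj y0 x1 := (hadj 1 0).symm
  have a3 : G.Adj x1 y1 := hadj 1 1
  have a4 : G.Adj y1 x0 := (hadj 0 1).symm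
  let p : G.Walk x0 x0 := .cons a1 (.cons a2 (.cons a3 (.cons a4 .nil)))
  have hp : p.IsCycle := by
    simp only [p]
    rw [SimpleGraph.Walk.cons_isCycle_iff]
    constructor
    · simp only [SimpleGraph.Walk.cons_isPath_iff, SimpleGraph.Walk.IsPath.nil,
        SimpleGraph.Walk.support_cons, SimpleGraph.Walk.support_nil, List.mem_cons,
        List.not_mem_nil, or_false, not_or, true_and, not_false_eq_true]
      refine ⟨⟨?_, ?_⟩, ?_⟩
      all_goals tauto
    · simp only [SimpleGraph.Walk.edges_cons, SimpleGraph.Walk.edges_nil, List.mem_cons,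
        List.not_mem_nil, or_false, Sym2.eq_iff]
      tauto
  have h4 : G.egirth ≤ p.length := SimpleGraph.egirth_le_length hp
  have h5 : p.length = 4 := rfl
  rw [h5] at h4
  exact absurd (lt_of_lt_of_le hg h4) (lt_irrefl _)

end Pool.Agent.H607R2.BW
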