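import Pool.Agent.H607R2.BW.Defs

namespace Pool.Agent.H607R2.BW

open Classical in
theorem ORD_fiber {α : Type} [Fintype α] [DecidableEq α] (r : ℕ) (s : Finset α) (hs : s.card = r) :
    (Finset.univ.filter (fun x : Fin r → α =>
      Function.Injective x ∧ Finset.univ.image x = s)).card = r.factorial := by
  have h1 : Fintype.card (Fin r ↪ s) = r.factorial := by
    rw [Fintype.card_embedding_eq, Fintype.card_fin, Fintype.card_coe, hs, Nat.descFactorial_self]
  rw [← h1, ← Finset.card_univ (α := Fin r ↪ s)]
  symm
  refine Finset.card_bij (fun (e : Fin r ↪ s) _ => fun i => (e i : α)) ?_ ?_ ?_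
  · intro e _
    have hinj : Function.Injective (fun i => (e i : α)) := fun i j hij =>
      e.injective (Subtype.ext hij)
    refine Finset.mem_filter.2 ⟨Finset.mem_univ _, hinj, ?_⟩
    apply Finset.eq_of_subset_of_card_le
    · intro a ha
      obtain ⟨i, _, rfl⟩ := Finset.mem_image.1 ha
      exact (e i).2
    · rw [Finset.card_image_of_injective _ hinj, hs]
      simp
  · intro e _ e' _ h
    ext i
    exact congrFun h i
  · intro x hx
    obtain ⟨_, hinj, him⟩ := Finset.mem_filter.1 hx
    have hmem : ∀ i, x i ∈ s := fun i => by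
      rw [← him]; exact Finset.mem_image_of_mem _ (Finset.mem_univ i)
    refine ⟨⟨fun i => ⟨x i, hmem i⟩, fun i j hij => hinj (congrArg Subtype.val hij)⟩,
      Finset.mem_univ _, rfl⟩

open Classical in
theorem t_ORD : S_ORD := by
  intro m r E hE
  rw [Nat.card_eq_fintype_card, Fintype.card_subtype]
  rw [Finset.card_eq_sum_card_fiberwise (f := fun x : Fin r → Str m => Finset.univ.image x)
    (t := E) (fun x hx => (Finset.mem_filter.1 hx).2.2)]
  have h : ∀ s ∈ E, (Finset.filter (fun x : Fin r → Str m => Finset.univ.image x = s)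
      (Finset.univ.filter (fun x : Fin r → Str m =>
        Function.Injective x ∧ Finset.univ.image x ∈ E))).card = r.factorial := by
    intro s hs
    rw [← ORD_fiber r s (hE s hs)]
    congr 1
    ext x
    simp only [Finset.mem_filter, Finset.mem_univ, true_and]
    constructor
    · rintro ⟨⟨h1, _⟩, h2⟩
      exact ⟨h1, h2⟩
    · rintro ⟨h1, h2⟩
      exact ⟨⟨h1, by rw [h2]; exact hs⟩, h2⟩
  rw [Finset.sum_congr rfl h, Finset.sum_const, smul_eq_mul, mul_comm]

end Pool.Agent.H607R2.BW
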