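import Pool.Agent.H607R2.BW.Defs2

/-! Task RBES3 (helper757). -/

set_option autoImplicit false

namespace Pool.Agent.H607R2.BW

theorem t_RBES3 (h : S_BES3) (hA : S_ASY2) : S_RBES3 := by
  classical
  have h1 : ∀ (m w k a : ℕ) (E : Finset (Finset (Str m))), (∀ s ∈ E, s.card = 3) →
      HyperWidth 3 w E → 1334 ≤ k → 6 * k ≤ 8 ^ a →
      (∀ T ⊆ E, T.card = k → k + 3 < (T.biUnion id).card) →
      6 * E.card ≤ 2 ^ m * (w * (1 + 4 * w * m) ^ (3 * a - 1)) := by
    intro m w k a E hE hw hk ha hT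
    by_contra hcon
    push Not at hcon
    obtain ⟨T, hTE, hTk, hT3⟩ := h m w k a E hE hw hk ha hcon
    have h2 := hT T hTE hTk
    have h3 : (T.biUnion id).card ≤ k + 3 := by
      convert hT3
    omega
  refine ⟨?_, ?_⟩
  · intro m w k a E hE hw hk ha hT
    refine h1 m w k a E hE hw hk ha fun T hTE hTk => ?_
    have := hT T hTE hTk
    convert this
  · intro k a c ε hk ha hc hcε
    have ha1 : 1 ≤ a := by
      rcases Nat.eq_zero_or_pos a with h0 | h0
      · subst h0
        simp at ha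
        omega
      · exact h0
    have h2 : (((3 * a - 1 : ℕ) : ℝ) + 1) * c < ε := by
      have : ((3 * a - 1 : ℕ) : ℝ) = 3 * a - 1 := by
        rw [Nat.cast_sub (by omega)]
        push_cast
        ring
      rw [this]
      linarith
    obtain ⟨m₀, hm₀⟩ := hA (3 * a - 1) 4 c ε 1 one_pos hc h2
    refine ⟨m₀, fun m w E hm hw hE hHW hT => ?_⟩
    have h3 := hm₀ m w hm hw
    have h4 := h1 m w k a E hE hHW hk ha fun T hTE hTk => by
      have := hT T hTE hTk
      convert this
    rw [one_mul] at h3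
    refine le_trans ?_ h3
    have h5 : E.card ≤ 2 ^ m * (w * (1 + 4 * w * m) ^ (3 * a - 1)) := by omega
    exact_mod_cast h5

end Pool.Agent.H607R2.BW
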