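import Pool.Agent.H607R2.BW.Defs2

/-!
# Final statement for uniform hypergraphs
-/

namespace Pool.Agent.H607R2.BW

theorem t_RBESR (h : S_BESR) (hA : S_ASY2) : S_RBESR := by
  classical
  have hfirst : ∀ (r m w e : ℕ) (E : Finset (Finset (Str m))), 3 ≤ r → (∀ s ∈ E, s.card = r) →
    HyperWidth r w E → (r * 2 ^ r * r.factorial) ^ r ≤ e →
    (∀ T ⊆ E, T.card = e → (r - 2) * e + 3 < (T.biUnion id).card) →
    r.factorial * E.card ≤
      2 ^ m * (w * (1 + 2 ^ (r - 1) * w * m) ^ (Nat.log 2 (2 ^ r * r.factorial * e))) := by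
    intro r m w e E hr hE hw he hT
    by_contra hcon
    push Not at hcon
    obtain ⟨T, hTE, hTc, hTu⟩ := h r m w e E hr hE hw he hcon
    have h1 := hT T hTE hTc
    have h2 : (T.biUnion id).card ≤ (r - 2) * e + 3 := by
      convert hTu
    omega
  refine ⟨?_, ?_⟩
  · intro r m w e E hr hE hw he hT
    apply hfirst r m w e E hr hE hw he
    intro T hTE hTc
    have := hT T hTE hTc
    convert this
  · intro r e ε hr he hε
    set A : ℕ := Nat.log 2 (2 ^ r * r.factorial * e) with hAdef
    have hA1 : (0 : ℝ) < (A : ℝ) + 1 := by positivity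
    refine ⟨ε / (2 * ((A : ℝ) + 1)), by positivity, ?_⟩
    obtain ⟨m₀, hm⟩ := hA A (2 ^ (r - 1)) (ε / (2 * ((A : ℝ) + 1))) ε 1 one_pos (by positivity)
      (by
        have : ((A : ℝ) + 1) * (ε / (2 * ((A : ℝ) + 1))) = ε / 2 := by
          field_simp
        rw [this]
        linarith)
    refine ⟨m₀, ?_⟩
    intro m w E hmm hwc hE hw hT
    have h1 := hm m w hmm hwc
    have h2 := hfirst r m w e E hr hE hw he (by
      intro T hTE hTc
      have := hT T hTE hTc
      convert this)
    have h3 : E.card ≤ r.factorial * E.card :=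
      Nat.le_mul_of_pos_left _ (Nat.factorial_pos r)
    have h4 : (E.card : ℝ) ≤
        ((2 ^ m * (w * (1 + 2 ^ (r - 1) * w * m) ^ A) : ℕ) : ℝ) := by
      exact_mod_cast h3.trans h2
    rw [one_mul] at h1
    refine h4.trans ?_
    exact_mod_cast h1

end Pool.Agent.H607R2.BW
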