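import Pool.Agent.H607R2.BW.Defs2

/-!
Task RCYC: the final statement for even cycles.
-/

namespace Pool.Agent.H607R2.BW

theorem RCYC_pos {k a : ℕ} (hk : 2 ≤ k) (ha : k ≤ 2 ^ a) : 0 < a := by
  rcases Nat.eq_zero_or_pos a with h | h
  · subst h
    simp at ha
    omega
  · exact h

theorem RCYC_one (h : S_KST) (hC : S_CYC) (m w k a : ℕ) (G : SimpleGraph (Str m)) (hk : 2 ≤ k)
    (ha : k ≤ 2 ^ a) (hw : GraphWidth w G) (hG : (SimpleGraph.cycleGraph (2 * k)).Free G) :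
    2 * Nat.card G.edgeSet ≤ 2 ^ m * (w * (1 + 2 * w * m) ^ (2 * a - 1)) := by
  have h1 : (completeBipartiteGraph (Fin k) (Fin k)).Free G :=
    fun hc => hG ((hC k hk).trans hc)
  have h2 := h m w k k a a G ha ha (by have := RCYC_pos hk ha; omega) hw h1
  rwa [← two_mul] at h2

theorem t_RCYC (h : S_KST) (hC : S_CYC) (hA : S_ASY2) : S_RCYC := by
  refine ⟨fun m w k a G hk ha hw hG => RCYC_one h hC m w k a G hk ha hw hG, ?_⟩
  intro k a c c' hk ha hc' hc hlt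
  have ha0 := RCYC_pos hk ha
  have hcast : ((2 * a - 1 : ℕ) : ℝ) + 1 = 2 * a := by
    have : (2 * a - 1) + 1 = 2 * a := by omega
    exact_mod_cast this
  obtain ⟨m₀, hm₀⟩ := hA (2 * a - 1) 2 c (1 / k) c' hc' hc (by rw [hcast]; exact hlt)
  refine ⟨m₀, fun m w G hm hw hG hcard => ?_⟩
  by_contra hcon
  have hw' : (w : ℝ) ≤ ((2 : ℝ) ^ m) ^ c := not_lt.1 hcon
  have h1 := hm₀ m w hm hw'
  have h2 := RCYC_one h hC m w k a G hk ha hw hG
  have h3 : ((2 * Nat.card G.edgeSet : ℕ) : ℝ) ≤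
      ((2 ^ m * (w * (1 + 2 * w * m) ^ (2 * a - 1)) : ℕ) : ℝ) := Nat.cast_le.2 h2
  have h4 : 0 < c' * ((2 : ℝ) ^ m) ^ (1 + 1 / (k : ℝ)) := by positivity
  have h5 : ((2 * Nat.card G.edgeSet : ℕ) : ℝ) = 2 * (Nat.card G.edgeSet : ℝ) := by push_cast; ring
  have h6 := h3.trans h1
  rw [h5] at h6
  linarith

end Pool.Agent.H607R2.BW
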