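import Pool.Agent.H607R2.BW.Defs2
import Pool.Agent.H607R2.BW.CORE
import Pool.Agent.H607R2.BW.ASY2

/-!
# Representation functions of sets of small width
-/

namespace Pool.Agent.H607R2.BW

open Finset

/-- the number with the given binary digits, lowest digit first -/
def value {m : ℕ} (x : Str m) : ℕ := ∑ t : Fin m, if x t then 2 ^ (t : ℕ) else 0

/-- membership in `A` of the numbers below `2 ^ m` is decided with `w` states -/
def SetWidth (w m : ℕ) (A : Set ℕ) : Prop :=
  HasWidth w (fun x : Fin 1 → Str m => value (x 0) ∈ A)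

/-- value of a word -/
def REPval : List (Fin 1 → Bool) → ℕ
  | [] => 0
  | a :: x => (if a 0 then 1 else 0) + 2 * REPval x

theorem REP_val_append (x y : List (Fin 1 → Bool)) :
    REPval (x ++ y) = REPval x + 2 ^ x.length * REPval y := by
  induction x with
  | nil => simp [REPval]
  | cons a x ih =>
    simp only [List.cons_append, REPval, List.length_cons, ih]
    ring

theorem REP_val_lt (x : List (Fin 1 → Bool)) : REPval x < 2 ^ x.length := by
  induction x with
  | nil => simp [REPval]
  | cons a x ih =>
    simp only [REPval, List.length_cons, pow_succ]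
    split_ifs <;> omega

theorem REP_val_inj : ∀ (x y : List (Fin 1 → Bool)), x.length = y.length → REPval x = REPval y →
    x = y := by
  intro x
  induction x with
  | nil =>
    intro y hl _
    simp only [List.length_nil] at hl
    exact (List.length_eq_zero_iff.1 hl.symm).symm
  | cons a x ih =>
    intro y hl hv
    match y, hl, hv with
    | b :: y, hl, hv =>
      simp only [List.length_cons, Nat.add_right_cancel_iff] at hl
      simp only [REPval] at hv
      have h1 : REPval x = REPval y ∧ (a 0 = b 0) := by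
        cases ha : a 0 <;> cases hb : b 0 <;> simp [ha, hb] at hv ⊢ <;> omega
      have h2 : a = b := by
        funext i
        fin_cases i
        exact h1.2
      rw [h2, ih y hl h1.1]

theorem REP_val_word {m : ℕ} (x : Fin 1 → Str m) : REPval (word x) = value (x 0) := by
  unfold word value
  induction m with
  | zero => simp [REPval]
  | succ m ih =>
    rw [List.ofFn_succ]
    simp only [REPval]
    rw [Fin.sum_univ_succ]
    have h := ih (fun j t => x j t.succ)
    rw [h]
    simp only [Fin.val_zero, pow_zero, Fin.val_succ]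
    rw [Finset.mul_sum]
    congr 1
    refine Finset.sum_congr rfl (fun t _ => ?_)
    split_ifs
    · rw [pow_succ]; ring
    · rfl

/-- cubes of dimension `t` in a set of words -/
def REPcube (t : ℕ) (S : Finset (List (Fin 1 → Bool))) : Prop :=
  ∃ (c : ℕ) (f : List Bool → ℕ) (φ : List Bool → List (Fin 1 → Bool)),
    (∀ b, b.length = t → φ b ∈ S ∧ REPval (φ b) = f b) ∧
    (∀ b b', b.length = t → b'.length = t → f b = f b' → b = b') ∧
    (∀ b, b.length = t → f b + f (b.map not) = c)

section

variable {w : ℕ} (δ : ℕ → Fin w → (Fin 1 → Bool) → Fin w)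

/-- two different words -/
def REPgood (p : ℕ) (s : Fin w) (q : ℕ) (s' : Fin w) : Prop :=
  ∃ e ∈ COREB δ p q s s', ∃ f ∈ COREB δ p q s s', e ≠ f

theorem REP_cube_cons (acc : Set (Fin w)) {p q n t : ℕ} {s s' : Fin w}
    (hq : q ≤ n) (hg : REPgood δ p s q s')
    (hb : REPcube t (COREX δ acc (p + q) (n - q) s')) :
    REPcube (t + 1) (COREX δ acc p n s) := by
  classical
  obtain ⟨e, he, f, hf, hef⟩ := hg
  obtain ⟨c, g, φ, h1, h2, h3⟩ := hb
  simp only [COREB, Finset.mem_filter, CORE_mem] at he hf
  have hlen : ∀ c : Bool, (if c then e else f).length = q := by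
    intro c
    cases c
    · simpa using hf.1
    · simpa using he.1
  have hrun : ∀ c : Bool, run δ p s (if c then e else f) = s' := by
    intro c
    cases c
    · simpa using hf.2
    · simpa using he.2
  refine ⟨REPval e + REPval f + 2 ^ q * c, fun b => match b with
    | [] => 0
    | x :: b => REPval (if x then e else f) + 2 ^ q * g b, fun b => match b with
    | [] => []
    | x :: b => (if x then e else f) ++ φ b, ?_, ?_, ?_⟩
  · intro b hb
    match b, hb with
    | x :: b, hb =>
      have hb' : b.length = t := by simpa using hb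
      obtain ⟨h4, h5⟩ := h1 b hb'
      simp only [COREX, Finset.mem_filter, CORE_mem] at h4 ⊢
      refine ⟨⟨?_, ?_⟩, ?_⟩
      · rw [List.length_append, hlen, h4.1]; omega
      · rw [CORE_run_append, hlen, hrun]; exact h4.2
      · rw [REP_val_append, hlen, h5]
  · intro b b' hb hb' heq
    match b, hb, b', hb', heq with
    | x :: b, hb, x' :: b', hb', heq =>
      have hb1 : b.length = t := by simpa using hb
      have hb2 : b'.length = t := by simpa using hb'
      have l1 := REP_val_lt (if x then e else f)
      have l2 := REP_val_lt (if x' then e else f)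
      rw [hlen] at l1 l2
      have heq' : REPval (if x then e else f) + 2 ^ q * g b =
        REPval (if x' then e else f) + 2 ^ q * g b' := heq
      have hmod : REPval (if x then e else f) = REPval (if x' then e else f) := by
        have := congrArg (fun z => z % 2 ^ q) heq'
        simpa [Nat.add_mul_mod_self_left, Nat.mod_eq_of_lt l1, Nat.mod_eq_of_lt l2] using this
      have hg : g b = g b' := by
        rw [hmod] at heq'
        have h6 := Nat.add_left_cancel heq'
        exact Nat.eq_of_mul_eq_mul_left (by positivity) h6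
      have h4 := h2 b b' hb1 hb2 hg
      have h5 : (if x then e else f) = (if x' then e else f) :=
        REP_val_inj _ _ (by rw [hlen, hlen]) hmod
      have h6 : x = x' := by
        cases x <;> cases x' <;> simp_all
      rw [h4, h6]
  · intro b hb
    match b, hb with
    | x :: b, hb =>
      have hb' : b.length = t := by simpa using hb
      have h4 := h3 b hb'
      simp only [List.map_cons]
      have h5 : 2 ^ q * g b + 2 ^ q * g (b.map not) = 2 ^ q * c := by rw [← mul_add, h4]
      cases x
      · simp only [Bool.not_false, if_true]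
        simp only [Bool.false_eq_true, if_false]
        omega
      · simp only [Bool.not_true, if_true]
        simp only [Bool.false_eq_true, if_false]
        omega

theorem REP_main (acc : Set (Fin w)) (t : ℕ) : ∀ (p n : ℕ) (s : Fin w),
    ¬ REPcube (t + 1) (COREX δ acc p n s) →
    (COREX δ acc p n s).card ≤ w * (1 + 2 * w * n) ^ t := by
  classical
  have hcardA : Fintype.card (Fin 1 → Bool) = 2 := by simp
  have hng : ∀ p s q s', ¬ REPgood δ p s q s' → (COREB δ p q s s').card ≤ 1 := by
    intro p s q s' h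
    rw [Finset.card_le_one]
    intro e he f hf
    by_contra hne
    exact h ⟨e, he, f, hf, hne⟩
  have hcube0 : ∀ S : Finset (List (Fin 1 → Bool)), ¬ REPcube 0 S → S = ∅ := by
    intro S h
    by_contra hS
    obtain ⟨x, hx⟩ := Finset.nonempty_iff_ne_empty.2 hS
    refine h ⟨REPval x + REPval x, fun _ => REPval x, fun _ => x, fun _ _ => ⟨hx, rfl⟩, ?_,
      fun _ _ => rfl⟩
    intro b b' hb hb' _
    rw [List.length_eq_zero_iff] at hb hb'
    rw [hb, hb']
  -- general step
  have step : ∀ (t K n : ℕ), (∀ (p n' : ℕ) (s : Fin w), n' ≤ n → ¬ REPcube t (COREX δ acc p n' s) →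
      (COREX δ acc p n' s).card ≤ K) → ∀ (p : ℕ) (s : Fin w),
      ¬ REPcube (t + 1) (COREX δ acc p n s) →
      (COREX δ acc p n s).card ≤ w + n * (w * (2 * K)) := by
    intro t K n ih p s h
    let Z : ℕ → Fin w → (Fin 1 → Bool) → Finset (List (Fin 1 → Bool)) := fun q s' a =>
      if REPgood δ p s q s' then ∅ else
        if REPgood δ p s (q + 1) (δ (p + q) s' a) then
          (COREB δ p q s s' ×ˢ COREX δ acc (p + q + 1) (n - (q + 1)) (δ (p + q) s' a)).image
            (fun yz => yz.1 ++ a :: yz.2)
        else ∅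
    let N : Fin w → Finset (List (Fin 1 → Bool)) := fun s' =>
      if REPgood δ p s n s' then ∅ else COREB δ p n s s'
    have hcover : COREX δ acc p n s ⊆ (Finset.univ.biUnion N) ∪
        ((Finset.range n).biUnion (fun q => Finset.univ.biUnion (fun s' =>
          Finset.univ.biUnion (fun a => Z q s' a)))) := by
      intro x hx
      have hx' := hx
      simp only [COREX, Finset.mem_filter, CORE_mem] at hx'
      obtain ⟨hxn, hxa⟩ := hx'
      rw [Finset.mem_union]
      by_cases hg : REPgood δ p s n (run δ p s x)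
      · right
        obtain ⟨q, hq, h1, h2⟩ := CORE_first
          (fun q => REPgood δ p s q (run δ p s (x.take q))) n (by
            rintro ⟨e, he, f, hf, hef⟩
            simp only [COREB, Finset.mem_filter, CORE_mem, List.length_eq_zero_iff] at he hf
            exact hef (he.1.trans hf.1.symm)) (by
            have : x.take n = x := by rw [← hxn]; exact List.take_length
            rw [this]; exact hg)
        have hqx : q < x.length := by omega
        have hlen : (x.take q).length = q := by simp; omega
        have htake : x.take (q + 1) = x.take q ++ [x[q]] := by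
          rw [List.take_append_getElem]
        have hrun1 : run δ p s (x.take (q + 1)) =
            δ (p + q) (run δ p s (x.take q)) (x[q]) := by
          rw [htake, CORE_run_append, hlen]; rfl
        have hsplit : x = x.take q ++ x[q] :: x.drop (q + 1) := by
          have := List.take_append_drop (q + 1) x
          rw [htake] at this
          simpa using this.symm
        simp only [Finset.mem_biUnion, Finset.mem_range, Finset.mem_univ, true_and]
        refine ⟨q, hq, run δ p s (x.take q), x[q], ?_⟩
        have h2' : REPgood δ p s (q + 1) (δ (p + q) (run δ p s (x.take q)) (x[q])) := by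
          rw [← hrun1]; exact h2
        have h1' : ¬ REPgood δ p s q (run δ p s (x.take q)) := h1
        simp only [Z]
        rw [if_neg h1', if_pos h2', Finset.mem_image]
        refine ⟨(x.take q, x.drop (q + 1)), ?_, hsplit.symm⟩
        rw [Finset.mem_product]
        constructor
        · simp only [COREB, Finset.mem_filter, CORE_mem]
          exact ⟨hlen, trivial⟩
        · simp only [COREX, Finset.mem_filter, CORE_mem]
          refine ⟨by rw [List.length_drop, hxn], ?_⟩
          have h3 := hxa
          rw [← List.take_append_drop (q + 1) x, CORE_run_append, hrun1] at h3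
          have h4 : (x.take (q + 1)).length = q + 1 := by simp; omega
          rw [h4] at h3
          exact h3
      · left
        simp only [Finset.mem_biUnion, Finset.mem_univ, true_and]
        refine ⟨run δ p s x, ?_⟩
        simp only [N]
        rw [if_neg hg]
        simp only [COREB, Finset.mem_filter, CORE_mem]
        exact ⟨hxn, trivial⟩
    have hN : ∀ s', (N s').card ≤ 1 := by
      intro s'
      simp only [N]
      split_ifs with hg
      · simp
      · exact hng _ _ _ _ hg
    have hZ : ∀ q ∈ Finset.range n, ∀ s' a, (Z q s' a).card ≤ K := by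
      intro q hq s' a
      rw [Finset.mem_range] at hq
      simp only [Z]
      split_ifs with hg1 hg2
      · simp
      · refine le_trans Finset.card_image_le ?_
        rw [Finset.card_product]
        have h1 := hng _ _ _ _ hg1
        have h2 : ¬ REPcube t (COREX δ acc (p + q + 1) (n - (q + 1)) (δ (p + q) s' a)) := by
          intro hb
          exact h (REP_cube_cons δ acc (by omega) hg2 hb)
        have h3 := ih (p + q + 1) (n - (q + 1)) (δ (p + q) s' a) (by omega) h2
        calc (COREB δ p q s s').card *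
            (COREX δ acc (p + q + 1) (n - (q + 1)) (δ (p + q) s' a)).card
            ≤ 1 * K := Nat.mul_le_mul h1 h3
          _ = K := one_mul K
      · simp
    refine le_trans (Finset.card_le_card hcover) ?_
    refine le_trans (Finset.card_union_le _ _) ?_
    apply Nat.add_le_add
    · refine le_trans Finset.card_biUnion_le ?_
      refine le_trans (Finset.sum_le_card_nsmul _ _ 1 (fun s' _ => hN s')) ?_
      simp
    · refine le_trans Finset.card_biUnion_le ?_
      refine le_trans (Finset.sum_le_card_nsmul _ _ (w * (2 * K)) ?_) ?_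
      · intro q hq
        refine le_trans Finset.card_biUnion_le ?_
        refine le_trans (Finset.sum_le_card_nsmul _ _ (2 * K) ?_) ?_
        · intro s' _
          refine le_trans Finset.card_biUnion_le ?_
          refine le_trans (Finset.sum_le_card_nsmul _ _ K (fun a _ => hZ q hq s' a)) ?_
          rw [Finset.card_univ, hcardA, smul_eq_mul]
        · rw [Finset.card_univ, Fintype.card_fin, smul_eq_mul]
      · rw [Finset.card_range, smul_eq_mul]
  induction t with
  | zero =>
    intro p n s h
    have := step 0 0 n (fun p n' s _ h' => by rw [hcube0 _ h']; simp) p s h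
    simpa using this
  | succ t ih =>
    intro p n s h
    have h1 := step (t + 1) (w * (1 + 2 * w * n) ^ t) n (fun p n' s hn' h' => by
      refine le_trans (ih p n' s h') ?_
      gcongr) p s h
    refine h1.trans ?_
    have h2 : 1 ≤ (1 + 2 * w * n) ^ t := Nat.one_le_pow _ _ (by omega)
    calc w + n * (w * (2 * (w * (1 + 2 * w * n) ^ t)))
        = w * (1 + (2 * w * n) * (1 + 2 * w * n) ^ t) := by ring
      _ ≤ w * ((1 + 2 * w * n) ^ t + (2 * w * n) * (1 + 2 * w * n) ^ t) := by
          apply Nat.mul_le_mul_left; omega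
      _ = w * (1 + 2 * w * n) ^ (t + 1) := by ring

end

theorem value_lt {m : ℕ} (x : Str m) : value x < 2 ^ m := by
  have h := REP_val_lt (word (fun _ : Fin 1 => x))
  rw [REP_val_word, CORE_word_length] at h
  exact h

theorem value_inj {m : ℕ} : Function.Injective (value (m := m)) := by
  intro x y h
  have h1 := REP_val_inj (word (fun _ : Fin 1 => x)) (word (fun _ : Fin 1 => y))
    (by rw [CORE_word_length, CORE_word_length]) (by rw [REP_val_word, REP_val_word]; exact h)
  exact congrFun (CORE_word_inj h1) 0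

/-- explicit theorem -/
theorem REP_explicit (A : Set ℕ) (w m t : ℕ) (hw : SetWidth w m A)
    (h : w * (1 + 2 * w * m) ^ t < Nat.card {a : ℕ // a ∈ A ∧ a < 2 ^ m}) :
    ∃ n < 2 ^ (m + 1), 2 ^ (t + 1) ≤ Nat.card {ab : ℕ × ℕ // ab.1 ∈ A ∧ ab.2 ∈ A ∧
      ab.1 + ab.2 = n} := by
  classical
  obtain ⟨δ, s, acc, hδ⟩ := hw
  have hδ' : ∀ x : Fin 1 → Str m, value (x 0) ∈ A ↔ run δ 0 s (word x) ∈ acc := hδ
  have hX : ∀ l ∈ COREX δ acc 0 m s, REPval l ∈ A ∧ REPval l < 2 ^ m := by
    intro l hl
    simp only [COREX, Finset.mem_filter, CORE_mem] at hl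
    have h1 := (hδ' (COREun m l)).2 (by rw [CORE_word_un m l hl.1]; exact hl.2)
    rw [← REP_val_word, CORE_word_un m l hl.1] at h1
    refine ⟨h1, ?_⟩
    have := REP_val_lt l
    rwa [hl.1] at this
  have hsurj : ∀ a : ℕ, a < 2 ^ m → ∃ x : Str m, value x = a := by
    intro a ha
    have hinj : Function.Injective (fun x : Str m => (⟨value x, value_lt x⟩ : Fin (2 ^ m))) := by
      intro x y hxy
      exact value_inj (congrArg Fin.val hxy)
    have hbij := (Fintype.bijective_iff_injective_and_card
      (fun x : Str m => (⟨value x, value_lt x⟩ : Fin (2 ^ m)))).2 ⟨hinj, by simp [Str]⟩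
    obtain ⟨x, hx⟩ := hbij.2 ⟨a, ha⟩
    exact ⟨x, congrArg Fin.val hx⟩
  have hcard : Nat.card {a : ℕ // a ∈ A ∧ a < 2 ^ m} ≤ (COREX δ acc 0 m s).card := by
    have hmem : ∀ a : {a : ℕ // a ∈ A ∧ a < 2 ^ m}, a.1 ∈ (COREX δ acc 0 m s).image REPval := by
      rintro ⟨a, haA, ha⟩
      obtain ⟨x, hx⟩ := hsurj a ha
      refine Finset.mem_image.2 ⟨word (fun _ => x), ?_, ?_⟩
      · simp only [COREX, Finset.mem_filter, CORE_mem]
        refine ⟨CORE_word_length _, ?_⟩
        exact (hδ' (fun _ => x)).1 (by rw [hx]; exact haA)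
      · rw [REP_val_word]; exact hx
    have h1 : Nat.card {a : ℕ // a ∈ A ∧ a < 2 ^ m} ≤
        Nat.card {a // a ∈ (COREX δ acc 0 m s).image REPval} :=
      Nat.card_le_card_of_injective (fun a => ⟨a.1, hmem a⟩) (by
        intro a b hab
        exact Subtype.ext (Subtype.mk.inj hab))
    have h2 : Nat.card {a // a ∈ (COREX δ acc 0 m s).image REPval} =
        ((COREX δ acc 0 m s).image REPval).card := by
      rw [Nat.card_eq_fintype_card, Fintype.card_coe]
    rw [h2] at h1
    exact h1.trans Finset.card_image_le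
  have hcube : REPcube (t + 1) (COREX δ acc 0 m s) := by
    by_contra hno
    have := REP_main δ acc t 0 m s hno
    omega
  obtain ⟨c, f, φ, h1, h2, h3⟩ := hcube
  have hf : ∀ b : List Bool, b.length = t + 1 → f b ∈ A ∧ f b < 2 ^ m := by
    intro b hb
    obtain ⟨h4, h5⟩ := h1 b hb
    rw [← h5]
    exact hX _ h4
  refine ⟨c, ?_, ?_⟩
  · have h4 := h3 (List.replicate (t + 1) true) (by simp)
    have h5 := hf (List.replicate (t + 1) true) (by simp)
    have h6 := hf ((List.replicate (t + 1) true).map not) (by simp)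
    rw [pow_succ]
    omega
  · have hfin : Finite {ab : ℕ × ℕ // ab.1 ∈ A ∧ ab.2 ∈ A ∧ ab.1 + ab.2 = c} := by
      have h4 : Set.Finite {ab : ℕ × ℕ | ab.1 ∈ A ∧ ab.2 ∈ A ∧ ab.1 + ab.2 = c} := by
        refine Set.Finite.subset (Finset.range (c + 1) ×ˢ Finset.range (c + 1)).finite_toSet ?_
        rintro ab ⟨_, _, hab⟩
        simp only [Finset.coe_product, Finset.coe_range, Set.mem_prod, Set.mem_Iio]
        omega
      exact h4.to_subtype
    have h4 : Nat.card (Fin (t + 1) → Bool) = 2 ^ (t + 1) := by simp
    rw [← h4]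
    refine Nat.card_le_card_of_injective (fun b => ⟨(f (List.ofFn b), f ((List.ofFn b).map not)),
      (hf _ (by simp)).1, (hf _ (by simp)).1, h3 _ (by simp)⟩) ?_
    intro b b' hbb
    have h5 := congrArg (fun z => z.1.1) hbb
    exact List.ofFn_injective (h2 _ _ (by simp) (by simp) h5)

/-- sub-polynomial width and a power of `N` elements force unbounded representations -/
theorem REP_force (A : Set ℕ) (w : ℕ → ℕ) (d : ℝ) (hd : 0 < d)
    (hw : ∀ c : ℝ, 0 < c → ∃ m₀ : ℕ, ∀ m ≥ m₀, (w m : ℝ) ≤ ((2 : ℝ) ^ m) ^ c)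
    (hA : ∀ m, SetWidth (w m) m A)
    (hbig : ∃ C : ℝ, 0 < C ∧ ∀ m₀ : ℕ, ∃ m ≥ m₀,
      ((2 : ℝ) ^ m) ^ d ≤ C * Nat.card {a : ℕ // a ∈ A ∧ a < 2 ^ m}) :
    ∀ K : ℕ, ∃ n, K ≤ Nat.card {ab : ℕ × ℕ // ab.1 ∈ A ∧ ab.2 ∈ A ∧ ab.1 + ab.2 = n} := by
  intro K
  obtain ⟨C, hC, hbig⟩ := hbig
  have hKpos : (0 : ℝ) < (K : ℝ) + 1 := by positivity
  obtain ⟨m₁, hm₁⟩ := hw (d / (2 * ((K : ℝ) + 1))) (by positivity)
  obtain ⟨m₂, hm₂⟩ := t_ASY2 K 2 (d / (2 * ((K : ℝ) + 1))) d (1 / (2 * C)) (by positivity)
    (by positivity) (by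
      have h : ((K : ℝ) + 1) * (d / (2 * ((K : ℝ) + 1))) = d / 2 := by field_simp
      rw [h]; linarith)
  obtain ⟨m, hm, hmb⟩ := hbig (max m₁ m₂)
  have h1 := hm₂ m (w m) (le_trans (le_max_right _ _) hm) (hm₁ m (le_trans (le_max_left _ _) hm))
  have hNpos : (0 : ℝ) < (2 : ℝ) ^ m := by positivity
  rw [Real.rpow_add hNpos, Real.rpow_one] at h1
  push_cast at h1
  have h2 : (w m : ℝ) * (1 + 2 * w m * m) ^ K ≤ 1 / (2 * C) * ((2 : ℝ) ^ m) ^ d := by
    have h3 : (2 : ℝ) ^ m * ((w m : ℝ) * (1 + 2 * w m * m) ^ K) ≤
        (2 : ℝ) ^ m * (1 / (2 * C) * ((2 : ℝ) ^ m) ^ d) := by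
      calc (2 : ℝ) ^ m * ((w m : ℝ) * (1 + 2 * w m * m) ^ K)
          ≤ 1 / (2 * C) * ((2 : ℝ) ^ m * ((2 : ℝ) ^ m) ^ d) := h1
        _ = (2 : ℝ) ^ m * (1 / (2 * C) * ((2 : ℝ) ^ m) ^ d) := by ring
    exact le_of_mul_le_mul_left h3 hNpos
  have hpos : 0 < ((2 : ℝ) ^ m) ^ d := by positivity
  have h4 : 1 / (2 * C) * ((2 : ℝ) ^ m) ^ d < Nat.card {a : ℕ // a ∈ A ∧ a < 2 ^ m} := by
    have h5 : ((2 : ℝ) ^ m) ^ d / C ≤ Nat.card {a : ℕ // a ∈ A ∧ a < 2 ^ m} := by
      rw [div_le_iff₀ hC]
      linarith
    have h6 : 1 / (2 * C) * ((2 : ℝ) ^ m) ^ d = (((2 : ℝ) ^ m) ^ d / C) / 2 := by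
      field_simp
    have h7 : 0 < ((2 : ℝ) ^ m) ^ d / C := by positivity
    rw [h6]
    linarith
  have h8 : w m * (1 + 2 * w m * m) ^ K < Nat.card {a : ℕ // a ∈ A ∧ a < 2 ^ m} := by
    have h9 := lt_of_le_of_lt h2 h4
    exact_mod_cast h9
  obtain ⟨n, _, hn⟩ := REP_explicit A (w m) m K (hA m) h8
  refine ⟨n, le_trans ?_ hn⟩
  calc K ≤ 2 ^ K := (Nat.lt_two_pow_self).le
    _ ≤ 2 ^ (K + 1) := Nat.pow_le_pow_right (by norm_num) (by omega)

end Pool.Agent.H607R2.BW
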