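import Pool.Agent.H607R2.BW.Defs2

/-!
# Girth: the final statement
-/

namespace Pool.Agent.H607R2.BW

theorem t_RGIR (h : S_KST) (hG : S_GIR) (hA : S_ASY2) : S_RGIR := by
  have part1 : ∀ (m w : ℕ) (G : SimpleGraph (Str m)), GraphWidth w G → 4 < G.egirth →
      2 * Nat.card G.edgeSet ≤ 2 ^ m * (w * (1 + 2 * w * m)) := by
    intro m w G hw hg
    have h1 := h m w 2 2 1 1 G (by norm_num) (by norm_num) (by norm_num) hw (hG _ G hg)
    simpa using h1
  refine ⟨part1, ?_⟩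
  intro k c c' hk hc' hc hck
  have hk0 : (0 : ℝ) < k := by exact_mod_cast (by omega : 0 < k)
  have h2 : (((1 : ℕ) : ℝ) + 1) * c < 1 / k := by
    have h3 : c * (2 * k) < 1 := by
      rw [lt_div_iff₀ (by positivity)] at hck
      exact hck
    rw [lt_div_iff₀ hk0]
    push_cast
    linarith
  obtain ⟨m₀, hm₀⟩ := hA 1 2 c (1 / k) c' hc' hc h2
  refine ⟨m₀, fun m w G hm hw hg hcard => ?_⟩
  by_contra hlt
  push Not at hlt
  have hg4 : (4 : ℕ∞) < G.egirth := by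
    refine lt_of_le_of_lt ?_ hg
    have : (4 : ℕ) ≤ 2 * k := by omega
    exact_mod_cast this
  have h4 := part1 m w G hw hg4
  have h5 := hm₀ m w hm hlt
  have h6 : ((2 * Nat.card G.edgeSet : ℕ) : ℝ) ≤ ((2 ^ m * (w * (1 + 2 * w * m) ^ 1) : ℕ) : ℝ) := by
    rw [pow_one]
    exact_mod_cast h4
  have h7 : (0 : ℝ) < c' * ((2 : ℝ) ^ m) ^ (1 + 1 / (k : ℝ)) := by positivity
  push_cast at h6 h5
  have h8 : (0 : ℝ) ≤ (Nat.card G.edgeSet : ℝ) := Nat.cast_nonneg _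
  linarith

end Pool.Agent.H607R2.BW
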