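import Pool.Agent.H607R2.BW.Defs2

/-!
# Final statement for `K_{r,r}`
-/

namespace Pool.Agent.H607R2.BW

theorem t_RKRR (h : S_KST) (hA : S_ASY2) : S_RKRR := by
  constructor
  · intro m w r a G hr ha hw hG
    have h1 := h m w r r a a G hr hr (by omega) hw hG
    rwa [show a + a - 1 = 2 * a - 1 by omega] at h1
  · intro r a c c' hr2 hra hc' hc hlt
    have ha : 1 ≤ a := by
      rcases Nat.eq_zero_or_pos a with rfl | ha
      · simp at hra
        omega
      · exact ha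
    have hA1 : (((2 * a - 1 : ℕ) : ℝ) + 1) * c < 1 - 1 / (r : ℝ) := by
      have : ((2 * a - 1 : ℕ) : ℝ) + 1 = 2 * a := by
        rw [Nat.cast_sub (by omega)]
        push_cast
        ring
      rw [this]
      exact hlt
    obtain ⟨m₀, hm₀⟩ := hA (2 * a - 1) 2 c (1 - 1 / (r : ℝ)) c' hc' hc hA1
    refine ⟨m₀, fun m w G hm hw hG he => ?_⟩
    by_contra hcon
    rw [not_lt] at hcon
    have h1 := h m w r r a a G hra hra (by omega) hw hG
    rw [show a + a - 1 = 2 * a - 1 by omega] at h1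
    have h2 := hm₀ m w hm hcon
    have h3 : ((2 * Nat.card G.edgeSet : ℕ) : ℝ) ≤
        ((2 ^ m * (w * (1 + 2 * w * m) ^ (2 * a - 1)) : ℕ) : ℝ) := by exact_mod_cast h1
    have h4 : (1 : ℝ) + (1 - 1 / (r : ℝ)) = 2 - 1 / (r : ℝ) := by ring
    rw [h4] at h2
    have h5 : (0 : ℝ) < c' * ((2 : ℝ) ^ m) ^ (2 - 1 / (r : ℝ)) := by positivity
    push_cast at h3 h2
    linarith

end Pool.Agent.H607R2.BW
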