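import Pool.Agent.H607R2.BW.Defs2

namespace Pool.Agent.H607R2.BW

theorem t_RKST (h : S_KST) (hA : S_ASY2) : S_RKST := by
  refine ⟨h, ?_⟩
  intro s t a b c ε hs ht hab hc hlt
  have hcast : (((a + b - 1 : ℕ) : ℝ) + 1) = a + b := by
    have h1 : a + b - 1 + 1 = a + b := by omega
    have h2 : (((a + b - 1 : ℕ) : ℝ) + 1) = ((a + b - 1 + 1 : ℕ) : ℝ) := by push_cast; ring
    rw [h2, h1]
    push_cast
    ring
  obtain ⟨m₀, hm⟩ := hA (a + b - 1) 2 c ε 1 one_pos hc (by rw [hcast]; exact hlt)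
  refine ⟨m₀, fun m w G hm0 hw hG hf => ?_⟩
  have h1 := h m w s t a b G hs ht hab hG hf
  have h2 := hm m w hm0 hw
  rw [one_mul] at h2
  have h3 : ((2 * Nat.card G.edgeSet : ℕ) : ℝ) ≤
      ((2 ^ m * (w * (1 + 2 * w * m) ^ (a + b - 1)) : ℕ) : ℝ) := Nat.cast_le.2 h1
  have h4 : ((Nat.card G.edgeSet : ℕ) : ℝ) ≤ ((2 * Nat.card G.edgeSet : ℕ) : ℝ) :=
    Nat.cast_le.2 (by omega)
  exact h4.trans (h3.trans h2)

end Pool.Agent.H607R2.BW
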